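import Pool.Agent.H76.MQ.Dx

/-!
The number of elements of the group `X J` (project MP_78d38b_MX, no row, proved; generic form of
`Pool/Agent/H76/MQ/Dx.lean`).
-/

set_option autoImplicit false
set_option linter.unusedSectionVars false
open scoped Classical

open WithZero NumberField IsDedekindDomain H38RT
open H38T1 (SC sc scu rep eo la si Pri OddP tp unif ka)
open H76PP H76MQ

namespace H76MX

variable {K L : Type} [Field K] [NumberField K] [Field L] [NumberField L] [Algebra K L]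

theorem Dg_sum {S Z J : Finset (HeightOneSpectrum (𝓞 K))} (hZ : Z ⊆ S)
    (hJ : ∀ v ∈ J, v ∉ S) {f : HeightOneSpectrum (𝓞 K) → ℕ} (h1 : ∀ v, 1 ≤ f v)
    (ha : ∀ v ∈ Z, 3 ≤ f v) (hj : ∀ v ∈ J, 2 ≤ f v) :
    (S ∪ J).card + 2 * Z.card + J.card ≤ ∑ v ∈ S ∪ J, f v := by
  have hd : Disjoint S J := Finset.disjoint_left.2 fun v hv hv' => hJ v hv' hv
  rw [Finset.sum_union hd, Finset.card_union_of_disjoint hd, ← Finset.sum_sdiff hZ]
  have e1 : (S \ Z).card ≤ ∑ v ∈ S \ Z, f v := by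
    rw [Finset.card_eq_sum_ones]
    exact Finset.sum_le_sum fun v _ => h1 v
  have e2 : Z.card * 3 ≤ ∑ v ∈ Z, f v := Finset.card_nsmul_le_sum Z f 3 ha
  have e3 : J.card * 2 ≤ ∑ v ∈ J, f v := Finset.card_nsmul_le_sum J f 2 hj
  have e4 : (S \ Z).card + Z.card = S.card := Finset.card_sdiff_add_card_eq_card hZ
  omega

theorem card_XJg {A B : K} {θ : L} (h : Cub K L A B θ) (hD : 4 * A ^ 3 + 27 * B ^ 2 ≠ 0)
    {S Z J : Finset (HeightOneSpectrum (𝓞 K))} (hZ : Z ⊆ S)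
    (hZ3 : ∀ v ∈ Z, 3 ≤ H30ZO.nb K L v) (t₁ t₂ : HeightOneSpectrum (𝓞 K) → HeightOneSpectrum (𝓞 L))
    (ν : HeightOneSpectrum (𝓞 K) → ZMod 2)
    (hJ : ∀ v ∈ J, v ∉ S ∧ OddP v ∧ TwG K v (t₁ v) (t₂ v)) :
    2 ^ (Module.finrank ℚ K + 2 * Z.card) ≤ Nat.card {c : SC L //
      c ∈ (HH K (S ∪ J) : AddSubgroup (SC L)) ∧ ∀ v ∈ J, la (t₁ v) c = ν v * eo (t₂ v) c} := by
  -- the number of units
  obtain ⟨U, hU⟩ : ∃ U : AddSubgroup (SC L), U =
      H24TD.US L {w : HeightOneSpectrum (𝓞 L) | dn K w ∈ S ∪ J} ⊓ H30ZO.HH K L := ⟨_, rfl⟩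
  have hc1 := H30ZO.card_X h (S ∪ J)
  rw [← hU] at hc1
  have hc2 := H30ZO.places_count h hD
  have hc3 := Dg_sum hZ (J := J) (fun v hv => (hJ v hv).1) (f := H30ZO.nb K L)
    Dx_nb1 hZ3 (fun v hv => Dx_nb2 (hJ v hv).2.2)
  have hUc : 2 ^ ((Module.finrank ℚ K + 2 * Z.card) + J.card) ≤ Nat.card U := by
    refine Nat.le_of_mul_le_mul_right (c := 2 ^ ((S ∪ J).card +
      (InfinitePlace.nrRealPlaces K + InfinitePlace.nrComplexPlaces K))) ?_ (pow_pos two_pos _)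
    rw [hc1, ← pow_add]
    refine Nat.pow_le_pow_right two_pos ?_
    rw [hc2]
    omega
  -- the conditions at `J`
  let φ : U →+ ({v // v ∈ J} → ZMod 2) :=
    { toFun := fun c v => la (t₁ v.1) c.1 + ν v.1 * eo (t₂ v.1) c.1
      map_zero' := by
        funext v
        have h1 := H38T1.la_add (Gg_odd1 (hJ v.1 v.2).2.1 (hJ v.1 v.2).2.2) 0 0
        rw [add_zero] at h1
        have h2 := left_eq_add.1 h1
        show la (t₁ v.1) 0 + ν v.1 * eo (t₂ v.1) 0 = 0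
        rw [h2, H38T1.eo_zero, mul_zero, add_zero]
      map_add' := by
        intro c c'
        funext v
        show la (t₁ v.1) (c.1 + c'.1) + ν v.1 * eo (t₂ v.1) (c.1 + c'.1) =
          (la (t₁ v.1) c.1 + ν v.1 * eo (t₂ v.1) c.1) +
          (la (t₁ v.1) c'.1 + ν v.1 * eo (t₂ v.1) c'.1)
        rw [H38T1.la_add (Gg_odd1 (hJ v.1 v.2).2.1 (hJ v.1 v.2).2.2), H38T1.eo_add]
        ring }
  have hker := Dx_ker (m := Module.finrank ℚ K + 2 * Z.card) φ (by rw [Fintype.card_coe]; exact hUc)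
  refine hker.trans ?_
  have hfin : Finite {c : SC L // c ∈ (HH K (S ∪ J) : AddSubgroup (SC L)) ∧
      ∀ v ∈ J, la (t₁ v) c = ν v * eo (t₂ v) c} := by
    have h1 : ((HH K (S ∪ J) : AddSubgroup (SC L)) : Set (SC L)).Finite :=
      Set.finite_coe_iff.1 (fin_HH K (S ∪ J))
    exact (h1.subset (fun c (hc : c ∈ {c : SC L | c ∈ (HH K (S ∪ J) : AddSubgroup (SC L)) ∧
      ∀ v ∈ J, la (t₁ v) c = ν v * eo (t₂ v) c}) => hc.1)).to_subtype
  have hX : ∀ c : φ.ker, c.1.1 ∈ (HH K (S ∪ J) : AddSubgroup (SC L)) ∧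
      ∀ v ∈ J, la (t₁ v) c.1.1 = ν v * eo (t₂ v) c.1.1 := by
    rintro ⟨⟨c, hcU⟩, hc⟩
    refine ⟨?_, ?_⟩
    · rw [hU] at hcU
      exact Dx_le hcU
    · intro v hv
      have h1 := congrFun (AddMonoidHom.mem_ker.1 hc) ⟨v, hv⟩
      have h2 : la (t₁ v) c + ν v * eo (t₂ v) c = 0 := h1
      exact CharTwo.add_eq_zero.1 h2
  refine Nat.card_le_card_of_injective (fun c : φ.ker => (⟨c.1.1, hX c⟩ : {c : SC L //
      c ∈ (HH K (S ∪ J) : AddSubgroup (SC L)) ∧ ∀ v ∈ J, la (t₁ v) c = ν v * eo (t₂ v) c})) ?_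
  intro c c' hcc
  have h0 : (⟨c.1.1, hX c⟩ : {c : SC L // c ∈ (HH K (S ∪ J) : AddSubgroup (SC L)) ∧
      ∀ v ∈ J, la (t₁ v) c = ν v * eo (t₂ v) c}) = ⟨c'.1.1, hX c'⟩ := hcc
  have h1 : c.1.1 = c'.1.1 := Subtype.mk.inj h0
  exact Subtype.ext (Subtype.ext h1)

end H76MX
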