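import Mathlib

/-!
ROW Wg (project MP_78d38b_MX, about 350 lines, pure linear algebra over `ZMod 2`): the walk in a general quadratic space.

This is a mechanical MODIFICATION of `Pool/Agent/H76/MQ/Wk.lean` (proved by helper11; copy it, rename the lemmas `Wg_..`): replace the space
`P × Fin 4 → ZMod 2` by `V`, `Wk_q` by `q`, `Wk_B` by `B` (symmetric since it is the polar form of `q`), `Wk_L` by `Ls`,
`Wk_loc I J ia ja` by `loc`, `2 * Fintype.card P` by `m`, `4 * Fintype.card P` by `2 * m = Module.finrank (ZMod 2) V`.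
`B x y = 0` for `x, y ∈ Ls` follows from `hpol` and `hLq`.  Steps (1) - (5) of the header of Wk.lean are unchanged.
-/

set_option autoImplicit false
set_option linter.unusedSectionVars false
open scoped Classical

namespace H76MX

section aux

lemma Wg_add_eq {a b : ZMod 2} (h : a + b = 0) : a = b := by
  revert a b; decide

lemma Wg_term (a b : ZMod 2) : a * (b * a + b) = 0 := by
  revert a b; decide

lemma Wg_one {a : ZMod 2} (h : a ≠ 0) : a = 1 := by
  revert a; decide

lemma Wg_two (a : ZMod 2) : a + a = 0 := by revert a; decide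

lemma Wg_twoV {V : Type} [AddCommGroup V] [Module (ZMod 2) V] (y : V) : y + y = 0 := by
  have h : (2 : ZMod 2) = 0 := by decide
  rw [← two_smul (ZMod 2) y, h, zero_smul]

variable {V : Type} [AddCommGroup V] [Module (ZMod 2) V] (q : V → ZMod 2)
  (B : LinearMap.BilinForm (ZMod 2) V)

lemma Wg_symm (hpol : ∀ x y, q (x + y) = q x + q y + B x y) (x y : V) : B x y = B y x := by
  have h1 := hpol x y
  have h2 := hpol y x
  rw [add_comm y x, h1, add_comm (q y) (q x)] at h2
  exact add_left_cancel h2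

lemma Wg_nondeg (hpol : ∀ x y, q (x + y) = q x + q y + B x y)
    (hB : ∀ x, (∀ y, B x y = 0) → x = 0) : B.Nondegenerate := by
  constructor
  · intro x h; exact hB x h
  · intro x h
    refine hB x fun y => ?_
    rw [Wg_symm q B hpol]; exact h y

lemma Wg_LB (hpol : ∀ x y, q (x + y) = q x + q y + B x y) (Ls : Submodule (ZMod 2) V)
    (hLq : ∀ x ∈ Ls, q x = 0) (x y : V) (hx : x ∈ Ls) (hy : y ∈ Ls) : B x y = 0 := by
  have h1 := hpol x y
  rw [hLq x hx, hLq y hy, hLq _ (Submodule.add_mem _ hx hy), zero_add, zero_add] at h1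
  exact h1.symm

/-- isotropic subspaces of large dimension are Lagrangian -/
lemma Wg_lag [Finite V] (hpol : ∀ x y, q (x + y) = q x + q y + B x y)
    (hB : ∀ x, (∀ y, B x y = 0) → x = 0) (m : ℕ) (hV : Module.finrank (ZMod 2) V ≤ 2 * m)
    (W : Submodule (ZMod 2) V)
    (hW : ∀ x ∈ W, ∀ y ∈ W, B x y = 0) (hd : m ≤ Module.finrank (ZMod 2) W) :
    Module.finrank (ZMod 2) W = m ∧
      ∀ y, (∀ x ∈ W, B x y = 0) → y ∈ W := by
  have hle : W ≤ B.orthogonal W := by
    intro y hy
    rw [LinearMap.BilinForm.mem_orthogonal_iff]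
    intro x hx
    exact hW x hx y hy
  have h1 := LinearMap.BilinForm.finrank_orthogonal (Wg_nondeg q B hpol hB) W
  have h2 := Submodule.finrank_mono hle
  have h3 := Submodule.finrank_le W
  have h4 : Module.finrank (ZMod 2) W = m := by omega
  refine ⟨h4, ?_⟩
  have h5 : W = B.orthogonal W := by
    refine Submodule.eq_of_le_of_finrank_le hle ?_
    omega
  intro y hy
  rw [h5, LinearMap.BilinForm.mem_orthogonal_iff]
  intro x hx
  exact hy x hx

end aux

section main

variable {H : Type} [AddCommGroup H] [Module (ZMod 2) H] {V : Type} [AddCommGroup V]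
  [Module (ZMod 2) V] {ι : Type}

/-- the space `X S` -/
def Wg_X (u n : ι → H →ₗ[ZMod 2] ZMod 2) (ν : ι → ZMod 2) (Tall S : Finset ι) :
    Submodule (ZMod 2) H where
  carrier := {c | (∀ v ∈ Tall, v ∉ S → n v c = 0) ∧ ∀ v ∈ S, u v c = ν v * n v c}
  add_mem' := by
    intro a b ha hb
    refine ⟨fun v hv hS => ?_, fun v hv => ?_⟩
    · rw [map_add, ha.1 v hv hS, hb.1 v hv hS, add_zero]
    · rw [map_add, map_add, ha.2 v hv, hb.2 v hv, mul_add]
  zero_mem' := by
    refine ⟨fun v hv hS => ?_, fun v hv => ?_⟩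
    · rw [map_zero]
    · rw [map_zero, map_zero, mul_zero]
  smul_mem' := by
    intro r a ha
    refine ⟨fun v hv hS => ?_, fun v hv => ?_⟩
    · rw [map_smul, ha.1 v hv hS, smul_zero]
    · rw [map_smul, map_smul, ha.2 v hv, smul_eq_mul, smul_eq_mul]; ring

lemma Wg_X_mem (u n : ι → H →ₗ[ZMod 2] ZMod 2) (ν : ι → ZMod 2) (Tall S : Finset ι) (c : H) :
    c ∈ Wg_X u n ν Tall S ↔
      (∀ v ∈ Tall, v ∉ S → n v c = 0) ∧ ∀ v ∈ S, u v c = ν v * n v c := Iff.rfl

variable (q : V → ZMod 2) (B : LinearMap.BilinForm (ZMod 2) V)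
  (hpol : ∀ x y, q (x + y) = q x + q y + B x y) (loc : H →ₗ[ZMod 2] V)
  (u n : ι → H →ₗ[ZMod 2] ZMod 2) (ν : ι → ZMod 2)

variable (Tall : Finset ι)
  (hq : ∀ c : H, q (loc c) + ∑ v ∈ Tall, n v c * (u v c + ν v) = 0)

include hq in
lemma Wg_q_eq (c : H) : q (loc c) = ∑ v ∈ Tall, n v c * (u v c + ν v) :=
  Wg_add_eq (hq c)

include hq in
lemma Wg_q_zero (S : Finset ι) (c : H) (hc : c ∈ Wg_X u n ν Tall S) :
    q (loc c) = 0 := by
  rw [Wg_q_eq q loc u n ν Tall hq c]
  refine Finset.sum_eq_zero fun v hv => ?_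
  by_cases hvS : v ∈ S
  · rw [hc.2 v hvS]; exact Wg_term _ _
  · rw [hc.1 v hv hvS, zero_mul]

include hpol hq in
lemma Wg_iso (S : Finset ι) (c c' : H) (hc : c ∈ Wg_X u n ν Tall S)
    (hc' : c' ∈ Wg_X u n ν Tall S) :
    B (loc c) (loc c') = 0 := by
  have h1 := Wg_q_zero q loc u n ν Tall hq S _ (Submodule.add_mem _ hc hc')
  rw [map_add, hpol, Wg_q_zero q loc u n ν Tall hq S c hc,
    Wg_q_zero q loc u n ν Tall hq S c' hc', zero_add, zero_add] at h1
  exact h1

include hpol hq in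
lemma Wg_step (S : Finset ι) (v : ι) (hv : v ∈ Tall) (hvS : v ∉ S) (c y : H)
    (hc : c ∈ Wg_X u n ν Tall (insert v S)) (hy : y ∈ Wg_X u n ν Tall S) :
    B (loc c) (loc y) = n v c * u v y := by
  have h1 := Wg_q_eq q loc u n ν Tall hq (c + y)
  rw [map_add, hpol, Wg_q_zero q loc u n ν Tall hq _ c hc,
    Wg_q_zero q loc u n ν Tall hq _ y hy, zero_add, zero_add] at h1
  rw [h1, Finset.sum_eq_single v]
  · have e1 : n v y = 0 := hy.1 v hv hvS
    have e2 : u v c = ν v * n v c := hc.2 v (Finset.mem_insert_self v S)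
    rw [map_add, map_add, e1, e2, add_zero]
    have e3 := Wg_term (n v c) (ν v)
    calc n v c * (ν v * n v c + u v y + ν v)
        = n v c * (ν v * n v c + ν v) + n v c * u v y := by ring
      _ = n v c * u v y := by rw [e3, zero_add]
  · intro w hw hwv
    by_cases hwS : w ∈ S
    · have e1 := hc.2 w (Finset.mem_insert_of_mem hwS)
      have e2 := hy.2 w hwS
      rw [map_add, map_add, e1, e2, ← mul_add]
      exact Wg_term _ _
    · have e1 := hc.1 w hw (by
        intro h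
        rcases Finset.mem_insert.1 h with h | h
        · exact hwv h
        · exact hwS h)
      have e2 := hy.1 w hw hwS
      rw [map_add, e1, e2, add_zero, zero_mul]
  · intro h; exact absurd hv h

/-- `κ S` -/
def Wg_K (S : Finset ι) : Submodule (ZMod 2) H :=
  Wg_X u n ν Tall S ⊓ LinearMap.ker loc

/-- `W S` -/
def Wg_W (S : Finset ι) : Submodule (ZMod 2) V :=
  (Wg_X u n ν Tall S).map loc

lemma Wg_down (S : Finset ι) (v : ι) (hvS : v ∉ S) (c : H)
    (hc : c ∈ Wg_X u n ν Tall (insert v S)) (h0 : n v c = 0) :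
    c ∈ Wg_X u n ν Tall S := by
  refine ⟨fun w hw hwS => ?_, fun w hw => hc.2 w (Finset.mem_insert_of_mem hw)⟩
  by_cases hwv : w = v
  · rw [hwv]; exact h0
  · exact hc.1 w hw (by
        intro h
        rcases Finset.mem_insert.1 h with h | h
        · exact hwv h
        · exact hwS h)

lemma Wg_up (S : Finset ι) (v : ι) (hv : v ∈ Tall) (hvS : v ∉ S) (c : H)
    (hc : c ∈ Wg_X u n ν Tall S) (h0 : u v c = 0) :
    c ∈ Wg_X u n ν Tall (insert v S) := by
  refine ⟨fun w hw hwS => hc.1 w hw (fun h => hwS (Finset.mem_insert_of_mem h)), fun w hw => ?_⟩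
  rcases Finset.mem_insert.1 hw with h | h
  · rw [h, h0, hc.1 v hv hvS, mul_zero]
  · exact hc.2 w h

variable [Finite H] [Finite V] (hB : ∀ x, (∀ y, B x y = 0) → x = 0) (m : ℕ)
  (hV : Module.finrank (ZMod 2) V ≤ 2 * m)

include hpol hq hB hV in
lemma Wg_W_lag (S : Finset ι) (hd : m ≤ Module.finrank (ZMod 2) (Wg_X u n ν Tall S))
    (hK : Wg_K loc u n ν Tall S = ⊥) :
    Module.finrank (ZMod 2) (Wg_X u n ν Tall S) = m ∧
    Module.finrank (ZMod 2) (Wg_W loc u n ν Tall S) = m ∧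
      ∀ y, (∀ c ∈ Wg_X u n ν Tall S, B (loc c) y = 0) →
        y ∈ Wg_W loc u n ν Tall S := by
  have hinj : ∀ c ∈ Wg_X u n ν Tall S, loc c = 0 → c = 0 := by
    intro c hc h
    have : c ∈ Wg_K loc u n ν Tall S := ⟨hc, h⟩
    rw [hK] at this
    exact (Submodule.mem_bot _).1 this
  have hfr : Module.finrank (ZMod 2) (Wg_W loc u n ν Tall S) =
      Module.finrank (ZMod 2) (Wg_X u n ν Tall S) := by
    have hi : Function.Injective (loc.domRestrict (Wg_X u n ν Tall S)) := by
      rw [injective_iff_map_eq_zero]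
      intro a ha
      have := hinj a.1 a.2 ha
      exact Subtype.ext this
    have h2 := LinearMap.finrank_range_of_inj hi
    rw [← h2]
    unfold Wg_W
    rw [LinearMap.range_domRestrict]
  have h3 := Wg_lag q B hpol hB m hV (Wg_W loc u n ν Tall S) (by
    rintro x ⟨c, hc, rfl⟩ y ⟨c', hc', rfl⟩
    exact Wg_iso q B hpol loc u n ν Tall hq S c c' hc hc') (by rw [hfr]; exact hd)
  refine ⟨by rw [← hfr]; exact h3.1, h3.1, ?_⟩
  intro y hy
  refine h3.2 y ?_
  rintro x ⟨c, hc, rfl⟩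
  exact hy c hc

include hpol hq in
/-- first kind of step: the kernel shrinks -/
lemma Wg_stepA (S : Finset ι) (v : ι) (hv : v ∈ Tall) (hvS : v ∉ S)
    (c₁ : H) (hc₁ : c₁ ∈ Wg_K loc u n ν Tall S) (hu : u v c₁ ≠ 0) :
    Module.finrank (ZMod 2) (Wg_K loc u n ν Tall (insert v S)) + 1 ≤
      Module.finrank (ZMod 2) (Wg_K loc u n ν Tall S) := by
  refine Submodule.finrank_lt_finrank_of_lt ?_
  have key : ∀ c ∈ Wg_K loc u n ν Tall (insert v S),
      c ∈ Wg_K loc u n ν Tall S ∧ u v c = 0 := by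
    intro c hc
    have h1 := Wg_step q B hpol loc u n ν Tall hq S v hv hvS c c₁ hc.1 hc₁.1
    have h2 : loc c = 0 := hc.2
    rw [h2, map_zero, LinearMap.zero_apply, Wg_one hu, mul_one] at h1
    refine ⟨⟨Wg_down u n ν Tall S v hvS c hc.1 h1.symm, hc.2⟩, ?_⟩
    rw [hc.1.2 v (Finset.mem_insert_self v S), ← h1, mul_zero]
  refine lt_of_le_of_ne (fun c hc => (key c hc).1) ?_
  intro h
  rw [← h] at hc₁
  exact hu (key c₁ hc₁).2

include hpol hq hB hV in
/-- second kind of step -/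
lemma Wg_stepB (Ls : Submodule (ZMod 2) V) (hLq : ∀ x ∈ Ls, q x = 0)
    (S : Finset ι) (v : ι) (hv : v ∈ Tall) (hvS : v ∉ S)
    (hd : m ≤ Module.finrank (ZMod 2) (Wg_X u n ν Tall S))
    (hd' : m ≤ Module.finrank (ZMod 2) (Wg_X u n ν Tall (insert v S)))
    (hK : Wg_K loc u n ν Tall S = ⊥)
    (y : V) (hyL : y ∈ Ls) (hyW : y ∉ Wg_W loc u n ν Tall S)
    (hu : ∀ c ∈ Wg_X u n ν Tall S, u v c = B y (loc c)) :
    Wg_K loc u n ν Tall (insert v S) = ⊥ ∧
    Module.finrank (ZMod 2) ↥(Wg_W loc u n ν Tall S ⊓ Ls) + 1 ≤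
      Module.finrank (ZMod 2) ↥(Wg_W loc u n ν Tall (insert v S) ⊓ Ls) := by
  obtain ⟨hX, -, horth⟩ := Wg_W_lag q B hpol loc u n ν Tall hq hB m hV S hd hK
  -- a vector with `u v y' ≠ 0`
  obtain ⟨y', hy', huy'⟩ : ∃ y' ∈ Wg_X u n ν Tall S, u v y' ≠ 0 := by
    by_contra hcon
    push Not at hcon
    refine hyW (horth y fun c hc => ?_)
    rw [Wg_symm q B hpol, ← hu c hc]
    exact hcon c hc
  have hK' : Wg_K loc u n ν Tall (insert v S) = ⊥ := by
    rw [eq_bot_iff]
    intro c hc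
    have h1 := Wg_step q B hpol loc u n ν Tall hq S v hv hvS c y' hc.1 hy'
    have h2 : loc c = 0 := hc.2
    rw [h2, map_zero, LinearMap.zero_apply, Wg_one huy', mul_one] at h1
    have h3 : c ∈ Wg_K loc u n ν Tall S :=
      ⟨Wg_down u n ν Tall S v hvS c hc.1 h1.symm, hc.2⟩
    rw [hK] at h3
    exact h3
  refine ⟨hK', ?_⟩
  obtain ⟨hX', -, horth'⟩ := Wg_W_lag q B hpol loc u n ν Tall hq hB m hV (insert v S) hd' hK'
  obtain ⟨c₀, hc₀, hc₀n⟩ : ∃ c₀ ∈ Wg_X u n ν Tall (insert v S), c₀ ∉ Wg_X u n ν Tall S := by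
    by_contra hcon
    push Not at hcon
    have heq : Wg_X u n ν Tall (insert v S) = Wg_X u n ν Tall S :=
      Submodule.eq_of_le_of_finrank_le hcon (by omega)
    have h1 : y' ∈ Wg_X u n ν Tall (insert v S) := by rw [heq]; exact hy'
    have h2 := h1.2 v (Finset.mem_insert_self v S)
    rw [hy'.1 v hv hvS, mul_zero] at h2
    exact huy' h2
  have hn0 : n v c₀ = 1 := by
    refine Wg_one fun h => hc₀n ?_
    exact Wg_down u n ν Tall S v hvS c₀ hc₀ h
  -- `loc c₀ - y ∈ W S`
  have h1 : loc c₀ + y ∈ Wg_W loc u n ν Tall S := by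
    refine horth _ fun c hc => ?_
    have h2 := Wg_step q B hpol loc u n ν Tall hq S v hv hvS c₀ c hc₀ hc
    rw [hn0, one_mul, hu c hc] at h2
    rw [map_add, Wg_symm q B hpol, h2, Wg_symm q B hpol _ y]
    exact Wg_two _
  obtain ⟨w', hw', hw'e⟩ := h1
  have h2 : loc c₀ = y + loc w' := by
    rw [hw'e, add_comm (loc c₀) y, ← add_assoc, Wg_twoV y, zero_add]
  have h3 : u v w' = 0 := by
    have e1 := Wg_q_zero q loc u n ν Tall hq _ c₀ hc₀
    rw [h2, hpol, hLq y hyL, Wg_q_zero q loc u n ν Tall hq S w' hw', zero_add,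
      zero_add] at e1
    rw [hu w' hw']; exact e1
  have hw'2 := Wg_up u n ν Tall S v hv hvS w' hw' h3
  have hyW' : y ∈ Wg_W loc u n ν Tall (insert v S) := by
    refine ⟨c₀ + w', Submodule.add_mem _ hc₀ hw'2, ?_⟩
    rw [map_add, h2, add_assoc, Wg_twoV, add_zero]
  refine Submodule.finrank_lt_finrank_of_lt ?_
  refine lt_of_le_of_ne ?_ ?_
  · rintro z ⟨⟨c, hc, rfl⟩, hzL⟩
    refine ⟨⟨c, Wg_up u n ν Tall S v hv hvS c hc ?_, rfl⟩, hzL⟩
    rw [hu c hc]
    exact Wg_LB q B hpol Ls hLq y _ hyL hzL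
  · intro h
    have : y ∈ Wg_W loc u n ν Tall (insert v S) ⊓ Ls := ⟨hyW', hyL⟩
    rw [← h] at this
    exact hyW this.1

end main

theorem walkG {H V : Type} [AddCommGroup H] [Module (ZMod 2) H] [Finite H] [AddCommGroup V]
    [Module (ZMod 2) V] [Finite V] {ι : Type} (q : V → ZMod 2) (B : LinearMap.BilinForm (ZMod 2) V)
    (hpol : ∀ x y, q (x + y) = q x + q y + B x y) (hB : ∀ x, (∀ y, B x y = 0) → x = 0)
    {m : ℕ} (hV : Nat.card V ≤ 2 ^ (2 * m)) (Ls : Submodule (ZMod 2) V) (hLq : ∀ x ∈ Ls, q x = 0)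
    (hL : 2 ^ m ≤ Nat.card Ls) (loc : H →ₗ[ZMod 2] V)
    (u n : ι → H →ₗ[ZMod 2] ZMod 2) (ν : ι → ZMod 2) (k : ℕ)
    (T : ℕ → Finset ι) (hT : ∀ i < k, ∀ j < k, i ≠ j → Disjoint (T i) (T j))
    (hq : ∀ c : H, q (loc c) + ∑ v ∈ (Finset.range k).biUnion T, n v c * (u v c + ν v) = 0)
    (hd : ∀ S ⊆ (Finset.range k).biUnion T, 2 ^ m ≤
      Nat.card {c : H // (∀ v ∈ (Finset.range k).biUnion T, v ∉ S → n v c = 0) ∧
        ∀ v ∈ S, u v c = ν v * n v c})
    (hr : ∀ l < k, ∀ φ : H →ₗ[ZMod 2] ZMod 2, ∃ v ∈ T l, ∀ c : H,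
      (∀ v' ∈ (Finset.range k).biUnion T, v' ∉ (Finset.range l).biUnion T → n v' c = 0) →
      u v c = φ c)
    (hk : Nat.card {c : H // ∀ v ∈ (Finset.range k).biUnion T, n v c = 0} * 2 ^ m ≤ 2 ^ k) :
    ∃ S ⊆ (Finset.range k).biUnion T, ∀ c : H,
      (∀ v ∈ (Finset.range k).biUnion T, v ∉ S → n v c = 0) →
      (∀ v ∈ S, u v c = ν v * n v c) → loc c ∈ Ls ∧ (loc c = 0 → c = 0) := by
  have hfin : ∀ S : Submodule (ZMod 2) H, Nat.card S = 2 ^ Module.finrank (ZMod 2) S := by
    intro S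
    rw [Module.natCard_eq_pow_finrank (K := ZMod 2), Nat.card_zmod]
  have hfinV : ∀ S : Submodule (ZMod 2) V, Nat.card S = 2 ^ Module.finrank (ZMod 2) S := by
    intro S
    rw [Module.natCard_eq_pow_finrank (K := ZMod 2), Nat.card_zmod]
  have hVf : Module.finrank (ZMod 2) V ≤ 2 * m := by
    have h1 : Nat.card V = 2 ^ Module.finrank (ZMod 2) V := by
      rw [Module.natCard_eq_pow_finrank (K := ZMod 2), Nat.card_zmod]
    rw [h1] at hV
    exact (Nat.pow_le_pow_iff_right (by norm_num)).1 hV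
  have hLf : m ≤ Module.finrank (ZMod 2) Ls := by
    rw [hfinV Ls] at hL
    exact (Nat.pow_le_pow_iff_right (by norm_num)).1 hL
  have hd' : ∀ S ⊆ (Finset.range k).biUnion T, m ≤
      Module.finrank (ZMod 2) (Wg_X u n ν ((Finset.range k).biUnion T) S) := by
    intro S hS
    have h1 := hd S hS
    have h2 := hfin (Wg_X u n ν ((Finset.range k).biUnion T) S)
    have h3 : Nat.card (Wg_X u n ν ((Finset.range k).biUnion T) S) =
      Nat.card {c : H // (∀ v ∈ (Finset.range k).biUnion T, v ∉ S → n v c = 0) ∧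
        ∀ v ∈ S, u v c = ν v * n v c} := rfl
    rw [← h3, h2] at h1
    exact (Nat.pow_le_pow_iff_right (by norm_num)).1 h1
  have hk' : Module.finrank (ZMod 2) (Wg_K loc u n ν ((Finset.range k).biUnion T) ∅) +
      m ≤ k := by
    have h1 : Nat.card (Wg_X u n ν ((Finset.range k).biUnion T) ∅) =
        Nat.card {c : H // ∀ v ∈ (Finset.range k).biUnion T, n v c = 0} := by
      refine Nat.card_congr (Equiv.subtypeEquivRight fun c => ?_)
      rw [Wg_X_mem]
      simp
    rw [← h1, hfin, ← pow_add] at hk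
    have h2 := (Nat.pow_le_pow_iff_right (by norm_num)).1 hk
    have h3 : Module.finrank (ZMod 2) (Wg_K loc u n ν ((Finset.range k).biUnion T) ∅) ≤
        Module.finrank (ZMod 2) (Wg_X u n ν ((Finset.range k).biUnion T) ∅) :=
      Submodule.finrank_mono inf_le_left
    omega
  -- the induction
  have main : ∀ l ≤ k, ∃ S ⊆ (Finset.range l).biUnion T,
      (l + Module.finrank (ZMod 2) (Wg_K loc u n ν ((Finset.range k).biUnion T) S) ≤
        Module.finrank (ZMod 2) (Wg_K loc u n ν ((Finset.range k).biUnion T) ∅) ∧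
        Wg_K loc u n ν ((Finset.range k).biUnion T) S ≠ ⊥) ∨
      (Wg_K loc u n ν ((Finset.range k).biUnion T) S = ⊥ ∧
        (Wg_W loc u n ν ((Finset.range k).biUnion T) S ≤ Ls ∨
        l ≤ Module.finrank (ZMod 2) (Wg_K loc u n ν ((Finset.range k).biUnion T) ∅) +
          Module.finrank (ZMod 2)
            ↥(Wg_W loc u n ν ((Finset.range k).biUnion T) S ⊓ Ls))) := by
    intro l
    induction l with
    | zero =>
      intro _
      refine ⟨∅, Finset.empty_subset _, ?_⟩
      by_cases h : Wg_K loc u n ν ((Finset.range k).biUnion T) ∅ = ⊥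
      · right; exact ⟨h, Or.inr (Nat.zero_le _)⟩
      · left; exact ⟨by omega, h⟩
    | succ l ih =>
      intro hl
      have hlk : l < k := hl
      obtain ⟨S, hS, hS2⟩ := ih (by omega)
      have hsub : (Finset.range l).biUnion T ⊆ (Finset.range k).biUnion T :=
        Finset.biUnion_subset_biUnion_of_subset_left _ (Finset.range_subset_range.2 (by omega))
      have hsub' : (Finset.range l).biUnion T ⊆ (Finset.range (l + 1)).biUnion T :=
        Finset.biUnion_subset_biUnion_of_subset_left _ (Finset.range_subset_range.2 (by omega))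
      have hTl : ∀ v ∈ T l, v ∈ (Finset.range k).biUnion T := fun v hv =>
        Finset.mem_biUnion.2 ⟨l, Finset.mem_range.2 hlk, hv⟩
      have hTl' : ∀ v ∈ T l, v ∉ S := by
        intro v hv hvS
        obtain ⟨i, hi, hvi⟩ := Finset.mem_biUnion.1 (hS hvS)
        have hi' := Finset.mem_range.1 hi
        exact (Finset.disjoint_left.1 (hT i (by omega) l hlk (by omega))) hvi hv
      have hins : ∀ v ∈ T l, insert v S ⊆ (Finset.range (l + 1)).biUnion T := by
        intro v hv w hw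
        rcases Finset.mem_insert.1 hw with h | h
        · rw [h]; exact Finset.mem_biUnion.2 ⟨l, Finset.mem_range.2 (by omega), hv⟩
        · exact hsub' (hS h)
      have hins' : ∀ v ∈ T l, insert v S ⊆ (Finset.range k).biUnion T := by
        intro v hv w hw
        rcases Finset.mem_insert.1 hw with h | h
        · rw [h]; exact hTl v hv
        · exact hsub (hS h)
      have hXn : ∀ c ∈ Wg_X u n ν ((Finset.range k).biUnion T) S,
          ∀ v' ∈ (Finset.range k).biUnion T, v' ∉ (Finset.range l).biUnion T → n v' c = 0 := by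
        intro c hc v' hv' hv'2
        exact hc.1 v' hv' (fun h => hv'2 (hS h))
      rcases hS2 with ⟨h1, h2⟩ | ⟨h1, h2⟩
      · obtain ⟨c₁, hc₁, hc₁0⟩ := (Submodule.ne_bot_iff _).1 h2
        obtain ⟨φ, hφ⟩ : ∃ φ : H →ₗ[ZMod 2] ZMod 2, φ c₁ ≠ 0 := by
          by_contra hcon
          push Not at hcon
          exact hc₁0 ((Module.forall_dual_apply_eq_zero_iff (ZMod 2) c₁).1 hcon)
        obtain ⟨v, hv, hvφ⟩ := hr l hlk φ
        refine ⟨insert v S, hins v hv, ?_⟩
        have hstep := Wg_stepA q B hpol loc u n ν _ hq S v (hTl v hv) (hTl' v hv) c₁ hc₁ (by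
          rw [hvφ c₁ (hXn c₁ hc₁.1)]; exact hφ)
        by_cases h3 : Wg_K loc u n ν ((Finset.range k).biUnion T) (insert v S) = ⊥
        · right
          refine ⟨h3, Or.inr ?_⟩
          omega
        · left
          exact ⟨by omega, h3⟩
      · rcases Classical.em (Wg_W loc u n ν ((Finset.range k).biUnion T) S ≤ Ls)
          with hW | hW
        · exact ⟨S, hS.trans hsub', Or.inr ⟨h1, Or.inl hW⟩⟩
        · have h2' : l ≤ Module.finrank (ZMod 2)
              (Wg_K loc u n ν ((Finset.range k).biUnion T) ∅) +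
            Module.finrank (ZMod 2)
              ↥(Wg_W loc u n ν ((Finset.range k).biUnion T) S ⊓ Ls) := by
            rcases h2 with h | h
            · exact absurd h hW
            · exact h
          have hdS := hd' S (hS.trans hsub)
          obtain ⟨y, hyL, hyW⟩ : ∃ y ∈ Ls,
              y ∉ Wg_W loc u n ν ((Finset.range k).biUnion T) S := by
            by_contra hcon
            push Not at hcon
            refine hW (le_of_eq (Submodule.eq_of_le_of_finrank_le hcon ?_).symm)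
            rw [(Wg_W_lag q B hpol loc u n ν _ hq hB m hVf S hdS h1).2.1]
            exact hLf
          obtain ⟨v, hv, hvφ⟩ := hr l hlk ((B y).comp loc)
          have hstep := Wg_stepB q B hpol loc u n ν _ hq hB m hVf Ls hLq S v (hTl v hv)
            (hTl' v hv) hdS (hd' _ (hins' v hv)) h1 y hyL hyW (by
              intro c hc
              rw [hvφ c (hXn c hc)]; rfl)
          exact ⟨insert v S, hins v hv, Or.inr ⟨hstep.1, Or.inr (by omega)⟩⟩
  obtain ⟨S, hS, hS2⟩ := main k le_rfl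
  have hfinal : Wg_K loc u n ν ((Finset.range k).biUnion T) S = ⊥ ∧
      Wg_W loc u n ν ((Finset.range k).biUnion T) S ≤ Ls := by
    rcases hS2 with ⟨h1, h2⟩ | ⟨h1, h2⟩
    · exfalso
      have h3 : Module.finrank (ZMod 2)
          (Wg_K loc u n ν ((Finset.range k).biUnion T) S) ≠ 0 := by
        intro h
        exact h2 (Submodule.finrank_eq_zero.1 h)
      omega
    · refine ⟨h1, ?_⟩
      rcases h2 with h2 | h2
      · exact h2
      · have h3 := (Wg_W_lag q B hpol loc u n ν _ hq hB m hVf S (hd' S hS) h1).2.1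
        have h4 : Wg_W loc u n ν ((Finset.range k).biUnion T) S ⊓ Ls =
            Wg_W loc u n ν ((Finset.range k).biUnion T) S :=
          Submodule.eq_of_le_of_finrank_le inf_le_left (by omega)
        exact inf_eq_left.1 h4
  refine ⟨S, hS, fun c hc1 hc2 => ?_⟩
  have hcX : c ∈ Wg_X u n ν ((Finset.range k).biUnion T) S := ⟨hc1, hc2⟩
  have hcL : loc c ∈ Ls := hfinal.2 ⟨c, hcX, rfl⟩
  refine ⟨hcL, fun h0 => ?_⟩
  have h1 : c ∈ Wg_K loc u n ν ((Finset.range k).biUnion T) S := ⟨hcX, h0⟩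
  rw [hfinal.1] at h1
  exact (Submodule.mem_bot _).1 h1

end H76MX
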