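import Pool.Agent.H36.MX.Df
import Pool.Agent.H76.MX.Dg
import Pool.Agent.H76.MX.Wg

/-!
Definitions for the local and global part of the project MP_78d38b_MX (multiquadratic fields, every number field; no row).
Compare `Pool/Agent/H76/MQ/Df.lean`, `Dl.lean` and /team-store/H76_MQT.md: the places above two and the auxiliary places are
now places at which the cubic splits completely.
-/

set_option autoImplicit false
set_option linter.unusedSectionVars false
open scoped Classical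

open WithZero NumberField IsDedekindDomain H38RT
open H38T1 (SC sc scu rep eo la si Pri OddP tp unif ka)
open H76PP H36MX H76MQ

namespace H76MX

/-- The completion. -/
abbrev Kv {K : Type} [Field K] [NumberField K] (v : HeightOneSpectrum (𝓞 K)) : Type :=
  v.adicCompletion K

variable (K : Type) [Field K] [NumberField K]

/-- The places at which the cubic splits and the places modulo which it has no root. -/
structure CfgX where
  Z : Finset (HeightOneSpectrum (𝓞 K))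
  R : Finset (HeightOneSpectrum (𝓞 K))

variable {K}

/-- All places of the configuration. -/
noncomputable def CfgX.S (C : CfgX K) : Finset (HeightOneSpectrum (𝓞 K)) := C.Z ∪ C.R

/-- `Z` contains the places above two, `Z ∪ R` those above three, the places of `R` are odd. -/
structure CfgX.Ok (C : CfgX K) : Prop where
  mem2 : ∀ v : HeightOneSpectrum (𝓞 K), (2 : 𝓞 K) ∈ v.asIdeal → v ∈ C.Z
  R2 : ∀ v ∈ C.R, (2 : 𝓞 K) ∉ v.asIdeal
  R3 : ∀ v : HeightOneSpectrum (𝓞 K), (3 : 𝓞 K) ∈ v.asIdeal → v ∈ C.R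

/-- The space of the local classes at the places of `Z`. -/
abbrev CfgX.V (C : CfgX K) : Type := (u : {u // u ∈ C.Z}) → SC (Kv u.1) × SC (Kv u.1)

/-- The quadratic form. -/
noncomputable def CfgX.Q (C : CfgX K) (p : C.V) : ZMod 2 := ∑ u, hsc (p u).1 (p u).2

/-- The family of pairs: `e u` are the roots at `u ∈ Z`. -/
structure FamX (C : CfgX K) (q₀ : HeightOneSpectrum (𝓞 K)) (T : Finset (HeightOneSpectrum (𝓞 K)))
    (A B : 𝓞 K) (e : (u : HeightOneSpectrum (𝓞 K)) → Fin 3 → Kv u) : Prop where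
  spl : ∀ u ∈ C.Z, Spl (algebraMap K (Kv u) (A : K)) (algebraMap K (Kv u) (B : K)) (e u)
  res : ∀ v ∈ C.R, ∀ t : 𝓞 K, t ^ 3 + A * t + B ∉ v.asIdeal
  irr : ∀ t : 𝓞 K, t ^ 3 + A * t + B ∉ q₀.asIdeal
  typ : ∀ v ∈ T, ∃ t : 𝓞 K, t ^ 3 + A * t + B ∈ v.asIdeal ∧
    ∀ s : 𝓞 K, -3 * t ^ 2 - 4 * A - s ^ 2 ∉ v.asIdeal
  sqf : ∀ v : HeightOneSpectrum (𝓞 K), v ∉ C.S → dsc A B ∉ v.asIdeal ^ 2
  pos : ∀ s : K →+* ℝ, 0 < s ((dsc A B : 𝓞 K) : K)

/-- The local conditions of the twist by `D * d`, for all local squares `D` at `u`, are contained in the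
conditions `LW x`. -/
def CondAt (u : HeightOneSpectrum (𝓞 K)) (A B : 𝓞 K) (e : Fin 3 → Kv u) (d : 𝓞 K) (x : SC (Kv u)) :
    Prop :=
  ∀ (hs : Spl (algebraMap K (Kv u) (A : K)) (algebraMap K (Kv u) (B : K)) e)
    (L : Type) [Field L] [NumberField L] [Algebra K L] (θ : L) (h : Cub K L (A : K) (B : K) θ)
    (D : 𝓞 K), D ≠ 0 →
    (∃ m : K, m ≠ 0 ∧ u.valuation K ((D : K) * m ^ 2 - 1) < u.valuation K 4) →
    ∀ δ : Fin 3 → K, ev (algebraMap K L ((D * d : 𝓞 K) : K) * θ) δ ≠ 0 →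
      IsSquare (Algebra.norm K (ev (algebraMap K L ((D * d : 𝓞 K) : K) * θ) δ)) →
      LC (algebraMap K (u.adicCompletion K)) (((D * d : 𝓞 K) : K) ^ 2 * A)
        (((D * d : 𝓞 K) : K) ^ 3 * B) δ →
      LW x (lcl h (algebraMap K (Kv u)) hs 0 (sc (ev (algebraMap K L ((D * d : 𝓞 K) : K) * θ) δ)))
        (lcl h (algebraMap K (Kv u)) hs 2 (sc (ev (algebraMap K L ((D * d : 𝓞 K) : K) * θ) δ)))

section Data

variable {L : Type} [Field L] [NumberField L] [Algebra K L]

/-- The places above `T` and the homomorphisms at `Z`. -/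
structure XData (C : CfgX K) (T : Finset (HeightOneSpectrum (𝓞 K))) (A B : 𝓞 K)
    (e : (u : HeightOneSpectrum (𝓞 K)) → Fin 3 → Kv u) (θ : L) where
  h : Cub K L (A : K) (B : K) θ
  hs : ∀ u ∈ C.Z, Spl (algebraMap K (Kv u) (A : K)) (algebraMap K (Kv u) (B : K)) (e u)
  t₁ : HeightOneSpectrum (𝓞 K) → HeightOneSpectrum (𝓞 L)
  t₂ : HeightOneSpectrum (𝓞 K) → HeightOneSpectrum (𝓞 L)
  hT : ∀ v ∈ T, TwT K (A : K) θ v (t₁ v) (t₂ v)

variable {C : CfgX K} {T : Finset (HeightOneSpectrum (𝓞 K))} {A B : 𝓞 K}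
  {e : (u : HeightOneSpectrum (𝓞 K)) → Fin 3 → Kv u} {θ : L}

/-- The constant at a place of `T`. -/
noncomputable def XData.nu (D : XData C T A B e θ) (v : HeightOneSpectrum (𝓞 K)) : ZMod 2 :=
  la (D.t₁ v) (sc (3 * θ ^ 2 + algebraMap K L (A : K)))

/-- The local classes at the places of `Z`. -/
noncomputable def XData.loc (D : XData C T A B e θ) : SC L →+ C.V where
  toFun c u := (lcl D.h (algebraMap K (Kv u.1)) (D.hs u.1 u.2) 0 c,
    lcl D.h (algebraMap K (Kv u.1)) (D.hs u.1 u.2) 2 c)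
  map_zero' := by
    funext u
    simp
  map_add' c c' := by
    funext u
    simp

lemma XData.loc_apply (D : XData C T A B e θ) (c : SC L) (u : {u // u ∈ C.Z}) :
    D.loc c u = (lcl D.h (algebraMap K (Kv u.1)) (D.hs u.1 u.2) 0 c,
      lcl D.h (algebraMap K (Kv u.1)) (D.hs u.1 u.2) 2 c) := rfl

/-- The class lies in the group `X J`. -/
def XData.X (D : XData C T A B e θ) (J : Finset (HeightOneSpectrum (𝓞 K))) (c : SC L) : Prop :=
  c ∈ (HH K (C.S ∪ J) : AddSubgroup (SC L)) ∧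
    ∀ v ∈ J, la (D.t₁ v) c = D.nu v * eo (D.t₂ v) c

end Data

variable (K) in
/-- The facts on Hilbert symbols which are used (proved in H36/MX). -/
structure Hilb : Prop where
  hf : ∀ v : HeightOneSpectrum (𝓞 K), HF (Kv v)
  odd : ∀ v : HeightOneSpectrum (𝓞 K), OddP v → ∀ a b : K, a ≠ 0 → b ≠ 0 →
    hsv v a b = tp v (sc a) (sc b)
  prod : ∀ a b : K, a ≠ 0 → b ≠ 0 → BB a b = 0

/-- The target of the walk: a singular subgroup of at least `2^m` elements which meets the local conditions of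
every twist only in zero. -/
structure Target (C : CfgX K) (Δ : Set (𝓞 K))
    (x : (u : HeightOneSpectrum (𝓞 K)) → 𝓞 K → SC (Kv u)) (W : Submodule (ZMod 2) C.V) : Prop where
  sing : ∀ p ∈ W, C.Q p = 0
  card : 2 ^ (Module.finrank ℚ K + 2 * C.Z.card) ≤ Nat.card W
  zero : ∀ d ∈ Δ, ∀ p ∈ W, (∀ u : {u // u ∈ C.Z}, LW (x u.1 d) (p u).1 (p u).2) → p = 0

end H76MX
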