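import Pool.Agent.H76.MX.Fx

/-!
Definitions for the choice of the configuration (project MP_78d38b_MX, no row).
-/

set_option autoImplicit false
set_option linter.unusedSectionVars false
open scoped Classical

open WithZero NumberField IsDedekindDomain H38RT
open H38T1 (SC sc scu rep eo la si Pri OddP tp unif ka)
open H76PP H36MX H76MQ

namespace H76MX

variable {K : Type} [Field K] [NumberField K]

/-- The class at a place above two: `y^2 = x^3 - 91 x - 330`. -/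
def DyadicClass (η : (u : HeightOneSpectrum (𝓞 K)) → SC (Kv u)) : Prop :=
  ∀ u : HeightOneSpectrum (𝓞 K), (2 : 𝓞 K) ∈ u.asIdeal → ∃ N : ℕ,
    dsc (-91 : 𝓞 K) (-330) ∉ u.asIdeal ^ N ∧ ∀ A B : 𝓞 K, A - (-91) ∈ u.asIdeal ^ N →
      B - (-330) ∈ u.asIdeal ^ N → ∃ e : Fin 3 → Kv u,
        Spl (algebraMap K (Kv u) (A : K)) (algebraMap K (Kv u) (B : K)) e ∧
        ∀ d : 𝓞 K, d ≠ 0 → CondAt u A B e d
          (if sc (algebraMap K (Kv u) (d : K)) = 0 then η u else sc (algebraMap K (Kv u) (d : K)))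

/-- The classes at an auxiliary place. -/
def AuxClass (η : (u : HeightOneSpectrum (𝓞 K)) → SC (Kv u)) : Prop :=
  ∀ u : HeightOneSpectrum (𝓞 K), (6 : 𝓞 K) ∉ u.asIdeal → ∀ s : ZMod 2, ∃ (a b : 𝓞 K) (N : ℕ),
    dsc a b ∉ u.asIdeal ^ N ∧ ∀ A B : 𝓞 K, A - a ∈ u.asIdeal ^ N →
      B - b ∈ u.asIdeal ^ N → ∃ e : Fin 3 → Kv u,
        Spl (algebraMap K (Kv u) (A : K)) (algebraMap K (Kv u) (B : K)) e ∧
        ∀ d : 𝓞 K, d ≠ 0 → eo u (sc (d : K)) = 0 → CondAt u A B e d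
          (if la u (sc (d : K)) + s = 0 then 0 else η u)

/-- The class of the twist by `d` at `u`. -/
noncomputable def xX (η : (u : HeightOneSpectrum (𝓞 K)) → SC (Kv u))
    (s : HeightOneSpectrum (𝓞 K) → ZMod 2) (u : HeightOneSpectrum (𝓞 K)) (d : 𝓞 K) : SC (Kv u) :=
  if (2 : 𝓞 K) ∈ u.asIdeal then
    (if sc (algebraMap K (Kv u) (d : K)) = 0 then η u else sc (algebraMap K (Kv u) (d : K)))
  else (if la u (sc (d : K)) + s u = 0 then 0 else η u)

end H76MX
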