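import Pool.Agent.H76.MX.Ml
import Pool.Agent.H76.MQ.Fn

/-!
Final counting for the project MP_78d38b_MX (no row, proved; as `Pool/Agent/H76/MQ/Fn.lean`).
-/

set_option autoImplicit false
set_option linter.unusedSectionVars false
open scoped Classical

open WithZero NumberField IsDedekindDomain H38RT
open H38T1 (SC sc scu rep eo la si Pri OddP tp unif ka)
open H76PP H36MX H76MQ

namespace H76MX

/-- The residue class: every member of the family in the class belongs to `FamX` and satisfies the local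
conditions. -/
structure ClassX {K : Type} [Field K] [NumberField K] (C : CfgX K) (Δ : Set (𝓞 K))
    (x : (u : HeightOneSpectrum (𝓞 K)) → 𝓞 K → SC (Kv u)) (m : Ideal (𝓞 K)) (E : ℕ) (A₀ B₀ : 𝓞 K) :
    Prop where
  bot : m ≠ ⊥
  two : 2 ≤ E
  inS : ∀ v ∈ C.S, m ≤ v.asIdeal ^ E ∧ dsc A₀ B₀ ∉ v.asIdeal ^ E
  out : ∀ v : HeightOneSpectrum (𝓞 K), v ∉ C.S → m ≤ v.asIdeal → dsc A₀ B₀ ∉ v.asIdeal
  res : ∀ A B : 𝓞 K, A - A₀ ∈ m → B - B₀ ∈ m → ∀ v ∈ C.R, ∀ t : 𝓞 K, t ^ 3 + A * t + B ∉ v.asIdeal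
  loc : ∀ A B : 𝓞 K, A - A₀ ∈ m → B - B₀ ∈ m → ∀ u ∈ C.Z, ∃ e : Fin 3 → Kv u,
    Spl (algebraMap K (Kv u) (A : K)) (algebraMap K (Kv u) (B : K)) e ∧
      ∀ d ∈ Δ, CondAt u A B e d (x u d)

theorem final_countX (K : Type) [Field K] [NumberField K] {C : CfgX K} (hC : C.Ok) (hH : Hilb K)
    (hcs : ConicSplit K) {Δ : Set (𝓞 K)} {x : (u : HeightOneSpectrum (𝓞 K)) → 𝓞 K → SC (Kv u)}
    {W : Submodule (ZMod 2) C.V} (hW : Target C Δ x W)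
    (hΔ : ∀ d ∈ Δ, d ≠ 0 ∧ ∀ v : HeightOneSpectrum (𝓞 K), v ∉ C.S → eo v (sc (d : K)) = 0)
    {m : Ideal (𝓞 K)} {e : ℕ} {A₀ B₀ : 𝓞 K} (hcl : ClassX C Δ x m e A₀ B₀)
    {Z : Set (HeightOneSpectrum (𝓞 K))} (hZ : Z.Infinite) :
    ∃ (Sg : Finset (HeightOneSpectrum (𝓞 K))) (c X₀ : ℝ), C.S ⊆ Sg ∧
      (∀ v ∈ Sg, v ∈ C.S ∨ v ∈ Z) ∧ 0 < c ∧ ∀ X : ℝ, X₀ ≤ X →
      ∃ G : Finset (𝓞 K × 𝓞 K),
        (∀ p ∈ G, p ∈ Bx K X ∧ ((∀ s : K →+* ℝ, 0 < s (p.1 : K)) ∧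
          (∀ v ∈ C.R, ∀ t : 𝓞 K, t ^ 3 + p.1 * t + p.2 ∉ v.asIdeal) ∧
          ∀ d ∈ Δ, ∀ P : Finset (HeightOneSpectrum (𝓞 K)), Sg ⊆ P →
            H36MT.RelG K P (d ^ 2 * p.1) (d ^ 3 * p.2))) ∧
        (∀ p ∈ G, ∀ q ∈ G, p.1 ^ 3 * q.2 ^ 2 = q.1 ^ 3 * p.2 ^ 2 → p = q) ∧
        c * ((Bx K X).ncard : ℝ) ≤ (G.card : ℝ) := by
  have H : Blocks K := blocks_of_HR2 K fun h hd => hr2 h hd
  have hm0 := hcl.bot
  have he := hcl.two
  have hmS := hcl.inS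
  have hm := hcl.out
  have hSv : ∀ v : HeightOneSpectrum (𝓞 K), (2 : 𝓞 K) ∈ v.asIdeal → v ∈ C.S := fun v hv =>
    Finset.mem_union_left _ (hC.mem2 v hv)
  obtain ⟨m', hm'0, hm't, hm'm, hm'S, -⟩ := H36MT.exists_mod hm0 C.S
  obtain ⟨Z', hZ'Z, hZ', hZ'm, hZr⟩ := H30CY.aux_set_in K hm'0 hZ
  have hmZ : ∀ v ∈ Z', ¬ m ≤ v.asIdeal ∧ (6 : 𝓞 K) ∉ v.asIdeal := fun v hv =>
    ⟨fun h => (hZ'm v hv).1 (hm'm.trans h), (hZ'm v hv).2⟩
  have hS6 : ∀ v : HeightOneSpectrum (𝓞 K), ¬ m ≤ v.asIdeal → v ∉ C.S := by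
    intro v hv hvS
    exact hv ((hmS v hvS).1.trans (Ideal.pow_le_self (by omega)))
  obtain ⟨q₀, T, b, k, c, X₀, hq₀, hT, hdis, hk0, hk, hc, hmain⟩ :=
    H36MX.count_main K hSv he hZ' hm0 hmZ hmS hm (Module.finrank ℚ K + 2 * C.Z.card)
  obtain ⟨Ta, hTa⟩ : ∃ Ta : Finset (HeightOneSpectrum (𝓞 K)), Ta = (Finset.range k).biUnion T :=
    ⟨_, rfl⟩
  rw [← hTa] at hmain
  have hTa' : ∀ v ∈ Ta, v ∈ Z' ∧ v ≠ q₀ := by
    intro v hv
    rw [hTa, Finset.mem_biUnion] at hv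
    obtain ⟨l, -, hl⟩ := hv
    exact hT l v hl
  have hT0 : T 0 ⊆ Ta := by
    intro v hv
    rw [hTa, Finset.mem_biUnion]
    exact ⟨0, Finset.mem_range.2 hk0, hv⟩
  obtain ⟨c', X₁, hc', h⟩ := H30CY.count_genS H (S := C.S) (e := e) (q₀ := q₀) (T := Ta) (m' := m')
    (fun J hJ => H36MT.exists_twistS hm'0 hm't hm'S (hZ'm q₀ hq₀).1 fun p hp =>
      hZr q₀ hq₀ p (hTa' p (hJ hp)).1 (hTa' p (hJ hp)).2)
    (fun p => (p.1 - A₀ ∈ m ∧ p.2 - B₀ ∈ m ∧ ∀ s : K →+* ℝ, 0 < s (p.1 : K)) ∧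
      ∀ l < k, GoodSt (C.S ∪ (Finset.range l).biUnion T) (T l) (b l) p.1 p.2)
    (fun p => (∀ s : K →+* ℝ, 0 < s (p.1 : K)) ∧
      (∀ v ∈ C.R, ∀ t : 𝓞 K, t ^ 3 + p.1 * t + p.2 ∉ v.asIdeal) ∧
      ∀ d ∈ Δ, ∀ P : Finset (HeightOneSpectrum (𝓞 K)), C.S ∪ insert q₀ Ta ⊆ P →
        H36MT.RelG K P (d ^ 2 * p.1) (d ^ 3 * p.2)) hc (by
      intro X hX
      refine (hmain X hX).trans ?_
      have hfin : {p : 𝓞 K × 𝓞 K | p ∈ Bx K X ∧ H36MT.FamS C.S e q₀ Ta p.1 p.2 ∧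
          ((p.1 - A₀ ∈ m ∧ p.2 - B₀ ∈ m ∧ ∀ s : K →+* ℝ, 0 < s (p.1 : K)) ∧
          ∀ l < k, GoodSt (C.S ∪ (Finset.range l).biUnion T) (T l) (b l) p.1 p.2) ∧
          ¬ H36MT.BadS C.S Ta p.1 p.2}.Finite := (H.fin X).subset fun p hp => hp.1
      refine Nat.cast_le.2 (Set.ncard_le_ncard ?_ hfin)
      rintro p ⟨h1, h2, h3, h4⟩
      refine ⟨h1, h2, ⟨h3, h4⟩, ?_⟩
      have h5 := h4 0 hk0
      rw [Finset.range_zero, Finset.biUnion_empty, Finset.union_empty] at h5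
      exact good_not_bad hT0 h5)
    (by
      rintro p hF ⟨hP, hG⟩ -
      obtain ⟨hP1, hP2, hP3⟩ := hP
      have hloc : ∀ u : HeightOneSpectrum (𝓞 K), ∃ e : Fin 3 → Kv u, u ∈ C.Z →
          Spl (algebraMap K (Kv u) (p.1 : K)) (algebraMap K (Kv u) (p.2 : K)) e ∧
            ∀ d ∈ Δ, CondAt u p.1 p.2 e d (x u d) := by
        intro u
        by_cases hu : u ∈ C.Z
        · obtain ⟨e, he⟩ := hcl.loc p.1 p.2 hP1 hP2 u hu
          exact ⟨e, fun _ => he⟩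
        · exact ⟨fun _ => 0, fun h => absurd h hu⟩
      choose ee hee using hloc
      have hpos : ∀ s : K →+* ℝ, 0 < s ((dsc p.1 p.2 : 𝓞 K) : K) := by
        intro s
        have e1 : ((dsc p.1 p.2 : 𝓞 K) : K) = 4 * (p.1 : K) ^ 3 + 27 * (p.2 : K) ^ 2 := by
          unfold dsc
          simp only [map_add, map_mul, map_pow, map_ofNat]
        rw [e1, map_add, map_mul, map_mul, map_pow, map_pow, map_ofNat, map_ofNat]
        have h1 := hP3 s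
        positivity
      have hFX : FamX C q₀ Ta p.1 p.2 ee := ⟨fun u hu => (hee u hu).1,
        hcl.res p.1 p.2 hP1 hP2, hF.irr, hF.typ, hF.sqf, hpos⟩
      have hF' := hF
      rw [hTa] at hFX hF'
      obtain ⟨J, hJ, hg⟩ := main_localX hC hH hcs hW hΔ (hS6 q₀ (hmZ q₀ hq₀).1) hk0 T b
        (fun i _ j _ hij => hdis i j hij)
        (fun v hv => by
          rw [← hTa] at hv
          exact ⟨hS6 v (hmZ v (hTa' v hv).1).1, (hTa' v hv).2⟩) hF' hFX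
        (fun d hd u hu => (hee u hu).2 d hd) hG hk
      rw [← hTa] at hJ hg
      refine ⟨J, hJ, fun D hDm hD => ⟨?_, ?_, ?_⟩⟩
      · intro s
        change 0 < s ((D ^ 2 * p.1 : 𝓞 K) : K)
        have e1 : ((D ^ 2 * p.1 : 𝓞 K) : K) = (D : K) ^ 2 * (p.1 : K) := by push_cast; rfl
        rw [e1, map_mul, map_pow]
        exact mul_pos (pow_pos (hD.pos s) 2) (hP3 s)
      · have hDm' := hm'm hDm
        refine hcl.res (D ^ 2 * p.1) (D ^ 3 * p.2) ?_ ?_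
        · have e1 : D ^ 2 * p.1 - A₀ = (p.1 - A₀) + (D - 1) * ((D + 1) * p.1) := by ring
          rw [e1]
          exact m.add_mem hP1 (m.mul_mem_right _ hDm')
        · have e1 : D ^ 3 * p.2 - B₀ = (p.2 - B₀) + (D - 1) * ((D ^ 2 + D + 1) * p.2) := by ring
          rw [e1]
          exact m.add_mem hP2 (m.mul_mem_right _ hDm')
      · intro d hd P hP
        have h1 := hg D hD d hd P (Finset.subset_union_left.trans hP)
          (((Finset.subset_insert _ _).trans Finset.subset_union_right).trans hP)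
          (hP (Finset.mem_union_right _ (Finset.mem_insert_self _ _)))
        have e1 : d ^ 2 * (D ^ 2 * p.1) = (D * d) ^ 2 * p.1 := by ring
        have e2 : d ^ 3 * (D ^ 3 * p.2) = (D * d) ^ 3 * p.2 := by ring
        change H36MT.RelG K P (d ^ 2 * (D ^ 2 * p.1)) (d ^ 3 * (D ^ 3 * p.2))
        rw [e1, e2]
        exact h1)
  refine ⟨C.S ∪ insert q₀ Ta, c', X₁, Finset.subset_union_left, fun v hv => ?_, hc', h⟩
  rcases Finset.mem_union.1 hv with h1 | h1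
  · exact Or.inl h1
  · right
    rcases Finset.mem_insert.1 h1 with h2 | h2
    · rw [h2]
      exact hZ'Z hq₀
    · exact hZ'Z (hTa' v h2).1

end H76MX
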