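import Pool.Agent.H76.MX.Df
import Pool.Agent.H30.ZO.Ac
import Pool.Agent.H30.ZO.Gc
import Pool.Agent.H36.CY.Sq
import Pool.Agent.H54.PP.Ab

/-!
ROW Hc (project MP_78d38b_MX, about 150 lines): the number of square classes of the completions.

card_scv: the homomorphism `φ = scm (algebraMap K (Kv v)) : SC K →+ SC (Kv v)` is surjective: every `x ≠ 0` in `Kv v` is approximated by `a : K` with `Valued.v (a / x - 1) < Valued.v 4` (density of `K` in the completion, see
`H36MT`/`H76PP` for approximation lemmas, e.g. in `H36/MT/Tc.lean`, `H76/PP/Te.lean`, `H30/ZO/*`), and `a / x` is then a square (Hensel; there are lemmas which say: `Valued.v (y - 1) < Valued.v 4 → IsSquare y`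
in the completion, grep `IsSquare` in H36/CY, H30/ZO, H38/T1, e.g. used for `H30ZO.mem_Sq`). Its kernel is `H30ZO.Sq v` (`H30ZO.mem_Sq` and `scm_sc`, `H38T1.sc_eq_zero`). So `Nat.card (SC (Kv v)) = (Sq v).index = 4 * qq v` (`H30ZO.index_Sq`;
`AddSubgroup.index_ker`, `QuotientAddGroup.quotientKerEquivOfSurjective`).
prod_scv: `∏ 4 * qq v = 4 ^ |Z| * ∏ qq v = 2 ^ (2 |Z|) * 2 ^ n` (`H30ZO.prod_two`).
card_V: `Nat.card_pi`, `Nat.card_prod`: `∏ (card * card) = (∏ card)^2`.
-/

set_option autoImplicit false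
set_option linter.unusedSectionVars false
open scoped Classical

open WithZero NumberField IsDedekindDomain H38RT
open H38T1 (SC sc scu rep eo la si Pri OddP tp unif ka)
open H76PP H36MX H76MQ

namespace H76MX

variable {K : Type} [Field K] [NumberField K]

theorem scv_surj (v : HeightOneSpectrum (𝓞 K)) (x : SC (Kv v)) :
    ∃ a : K, a ≠ 0 ∧ sc (algebraMap K (Kv v) a) = x := by
  obtain ⟨c₀, hc₀, rfl⟩ := H38T1.sc_surj x
  have h40 : (4 : v.adicCompletion K) ≠ 0 := by
    have : (4 : v.adicCompletion K) = 2 * 2 := by norm_num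
    rw [this]
    exact mul_ne_zero two_ne_zero two_ne_zero
  obtain ⟨k, hk⟩ : ∃ k : K, Valued.v (algebraMap K (v.adicCompletion K) k - c₀) <
      Valued.v (4 * c₀) := by
    have hd := HeightOneSpectrum.denseRange_algebraMap (K := K) v
    have hopen : IsOpen {y : v.adicCompletion K | Valued.v (y - c₀) < Valued.v (4 * c₀)} := by
      have h1 : IsOpen {y : v.adicCompletion K | Valued.v y < Valued.v (4 * c₀)} := by
        have := Valued.isOpen_ball (v.adicCompletion K) (Valued.v.restrict (4 * c₀))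
        simp_rw [Valuation.restrict_lt_iff] at this
        exact this
      exact h1.preimage (continuous_sub_right c₀)
    have hne : (4 * c₀ : v.adicCompletion K) ≠ 0 := mul_ne_zero h40 hc₀
    obtain ⟨k, hk⟩ := hd.exists_mem_open hopen ⟨c₀, by
      simp only [Set.mem_ofPred_eq, sub_self, map_zero]
      exact zero_lt_iff.2 ((Valuation.ne_zero_iff _).2 hne)⟩
    exact ⟨k, hk⟩
  obtain ⟨r, hr0, hr⟩ := H36CY.sq_near (F := v.adicCompletion K) hk
  have hk0 : k ≠ 0 := by
    intro h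
    rw [h, map_zero] at hr
    exact mul_ne_zero hc₀ (pow_ne_zero 2 hr0) hr.symm
  refine ⟨k, hk0, ?_⟩
  have h1 : algebraMap K (Kv v) k = c₀ * r ^ 2 := hr
  rw [h1, H38T1.sc_mul hc₀ (pow_ne_zero 2 hr0)]
  have h2 : sc (r ^ 2) = 0 := (H38T1.sc_eq_zero (pow_ne_zero 2 hr0)).2 ⟨r, pow_two r⟩
  rw [h2, add_zero]

theorem card_scv (v : HeightOneSpectrum (𝓞 K)) : Nat.card (SC (Kv v)) = 4 * H30ZO.qq v := by
  rw [← H30ZO.index_Sq v, H30ZO.Sq, AddSubgroup.index_ker]
  have h1 : (scm (algebraMap K (v.adicCompletion K) : K →* v.adicCompletion K)).range = ⊤ := by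
    rw [AddMonoidHom.range_eq_top]
    intro x
    obtain ⟨a, ha, hx⟩ := scv_surj v x
    exact ⟨sc a, by rw [scm_sc _ ha]; exact hx⟩
  rw [h1]
  exact Nat.card_congr AddSubgroup.topEquiv.toEquiv.symm

private theorem Hc_qq_pos (v : HeightOneSpectrum (𝓞 K)) : 0 < H30ZO.qq v := by
  have h1 := H54PP.two_le_Nv v
  rw [H30ZO.qq]
  positivity

theorem fin_scv (v : HeightOneSpectrum (𝓞 K)) : Finite (SC (Kv v)) := by
  refine Nat.finite_of_card_ne_zero ?_
  rw [card_scv]
  have := Hc_qq_pos v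
  omega

theorem prod_scv {Z : Finset (HeightOneSpectrum (𝓞 K))}
    (hZ : ∀ v : HeightOneSpectrum (𝓞 K), (2 : 𝓞 K) ∈ v.asIdeal → v ∈ Z) :
    ∏ v ∈ Z, Nat.card (SC (Kv v)) = 2 ^ (Module.finrank ℚ K + 2 * Z.card) := by
  have h1 : ∀ v ∈ Z, Nat.card (SC (Kv v)) = 4 * H30ZO.qq v := fun v _ => card_scv v
  have h2 : ∀ v : HeightOneSpectrum (𝓞 K), v.valuation K 2 < 1 → v ∈ Z := by
    intro v hv
    refine hZ v ?_
    refine (HeightOneSpectrum.valuation_lt_one_iff_mem (K := K) v 2).1 ?_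
    have h2 : algebraMap (𝓞 K) K 2 = 2 := map_ofNat (algebraMap (𝓞 K) K) 2
    exact (congrArg (v.valuation K) h2).trans_lt hv
  rw [Finset.prod_congr rfl h1, Finset.prod_mul_distrib, Finset.prod_const,
    H30ZO.prod_two Z h2, pow_add, mul_comm, pow_mul]
  norm_num

theorem fin_V (C : CfgX K) : Finite C.V := by
  have : ∀ v : HeightOneSpectrum (𝓞 K), Finite (SC (Kv v)) := fin_scv
  exact Pi.finite

theorem card_V {C : CfgX K} (hC : C.Ok) :
    Nat.card C.V = 2 ^ (2 * (Module.finrank ℚ K + 2 * C.Z.card)) := by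
  have h1 : Nat.card C.V = ∏ u : {u // u ∈ C.Z}, (Nat.card (SC (Kv u.1))) ^ 2 := by
    rw [CfgX.V, Nat.card_pi]
    refine Finset.prod_congr rfl fun u _ => ?_
    rw [Nat.card_prod, pow_two]
  rw [h1, Finset.prod_pow, Finset.prod_coe_sort C.Z (fun u => Nat.card (SC (Kv u))),
    prod_scv hC.mem2, ← pow_mul, mul_comm]

end H76MX
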