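import Pool.Agent.H76.MX.Df
import Pool.Agent.H30.ZO.Gb
import Pool.Agent.H73.P2.Cm
import Pool.Agent.H36.CY.Ld

/-!
ROW Nb (project MP_78d38b_MX, about 150 lines): there are three places above a place at which the cubic splits completely.

PROOF. `i : K →+* Kv u` the embedding, `ρ j = rh h i (hs.root j) : L →+* Kv u` (`rh_algebraMap`, `rh_theta`: `ρ j θ = e j`), `j : Fin 3`. For each `j` there is a place `w j` of `L` above `u` with
`(w j).valuation L y < 1 ↔ Valued.v (ρ j y) < 1` for `y : 𝓞 L`: take the prime ideal `{y : 𝓞 L | Valued.v (ρ j y) < 1}` of `𝓞 L` (every `y : 𝓞 L` is integral over `ℤ`, so `ρ j y` is integral, so `Valued.v (ρ j y) ≤ 1`); it is not zero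
since it contains the image of a nonzero element of `u.asIdeal`, and its intersection with `𝓞 K` is `u.asIdeal` (`Valued.v (i x) = u.valuation K x`), so `dn K (w j) = u`. (Similar constructions of a place from a homomorphism
into a completion exist: grep `adicCompletion` with `dn K` in `Pool/Agent/H73`, `Pool/Agent/H30/ZO`, `Pool/Agent/H24`; use them if convenient.)
The `w j` are different: let `j ≠ k` and `w j = w k`. For all `y : L`: `Valued.v (ρ j y) < 1 ↔ Valued.v (ρ k y) < 1` first for `y : 𝓞 L`, then for all `y : L` (write `y = a / b` with `a, b : 𝓞 L` and `b ∉ w j`: the local ring at `w j` is a valuation ring, `w.valuation L y ≤ 1`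
gives such a representation; `Valued.v (ρ y) ≤ 1 ↔ w.valuation L y ≤ 1` and `< 1 ↔ < 1`). Let `γ = Valued.v (e j - e k) ≠ 0` (`hs.ne01` etc.), choose `a : K` with `Valued.v (i a - e j) < γ` (density of `K`) and `b : K` with `u.valuation K b = γ` (`b ≠ 0`).
`y = (algebraMap K L a - θ) / algebraMap K L b`: `ρ j y = (i a - e j) / i b` has `Valued.v < 1`, `ρ k y = (i a - e k) / i b` has `Valued.v = 1` (`i a - e k = (i a - e j) + (e j - e k)`). Contradiction.
`nb K L u = {w | dn K w = u}.ncard ≥ 3` (`fin_above`, `Set.ncard_le_ncard`, the image of an injective map from `Fin 3`).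
-/

set_option autoImplicit false
set_option linter.unusedSectionVars false
open scoped Classical

open WithZero NumberField IsDedekindDomain H38RT
open H38T1 (SC sc scu rep eo la si Pri OddP tp unif ka)
open H76PP H36MX H76MQ

namespace H76MX

variable {K L : Type} [Field K] [NumberField K] [Field L] [NumberField L] [Algebra K L]

theorem Nb_dn (v : HeightOneSpectrum (𝓞 K)) (j : L →+* v.adicCompletion K)
    (hj : ∀ x : K, j (algebraMap K L x) = algebraMap K (v.adicCompletion K) x) :
    dn K (H73P2.Cm_pl v j hj) = v := by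
  apply HeightOneSpectrum.ext
  ext x
  have h1 : x ∈ (dn K (H73P2.Cm_pl v j hj)).asIdeal ↔
      algebraMap (𝓞 K) (𝓞 L) x ∈ H73P2.Cm_id v j hj := Iff.rfl
  rw [h1, H73P2.Cm_mem, ← IsScalarTower.algebraMap_apply (𝓞 K) (𝓞 L) L,
    IsScalarTower.algebraMap_apply (𝓞 K) K L, H73P2.Cm_val v j hj]
  exact v.valuation_lt_one_iff_mem (K := K) x

theorem Nb_lt (v : HeightOneSpectrum (𝓞 K)) (j : L →+* v.adicCompletion K)
    (hj : ∀ x : K, j (algebraMap K L x) = algebraMap K (v.adicCompletion K) x) {x y : L}
    (hy : y ≠ 0) (h : Valued.v (j x) < Valued.v (j y)) :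
    (H73P2.Cm_pl v j hj).valuation L x < (H73P2.Cm_pl v j hj).valuation L y := by
  by_contra hcon
  rw [not_lt] at hcon
  have hx : x ≠ 0 := by
    rintro rfl
    rw [map_zero, le_zero_iff, Valuation.zero_iff] at hcon
    exact hy hcon
  have h1 : (H73P2.Cm_pl v j hj).valuation L (y / x) ≤ 1 := by
    rw [map_div₀]
    exact (div_le_one₀ (zero_lt_iff.2 ((Valuation.ne_zero_iff _).2 hx))).2 hcon
  have h2 := H73P2.Cm_pl_le v j hj _ h1
  rw [map_div₀, map_div₀, div_le_one₀ (zero_lt_iff.2 ((Valuation.ne_zero_iff _).2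
    ((map_ne_zero j).2 hx)))] at h2
  exact absurd h (not_lt.2 h2)

theorem nb_split {A B : K} {θ : L} (h : Cub K L A B θ) {u : HeightOneSpectrum (𝓞 K)}
    {e : Fin 3 → Kv u} (hs : Spl (algebraMap K (Kv u) A) (algebraMap K (Kv u) B) e) :
    3 ≤ H30ZO.nb K L u := by
  obtain ⟨ρ, hρ⟩ : ∃ ρ : Fin 3 → (L →+* Kv u),
      ∀ j, ρ j = rh h (algebraMap K (Kv u)) (hs.root j) := ⟨_, fun _ => rfl⟩
  have hj : ∀ j (x : K), ρ j (algebraMap K L x) = algebraMap K (u.adicCompletion K) x := by
    intro j x
    rw [hρ]
    exact rh_algebraMap h _ _ x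
  have hθ : ∀ j, ρ j θ = e j := by
    intro j
    rw [hρ]
    exact rh_theta h _ _
  have he : ∀ j k : Fin 3, j ≠ k → e j ≠ e k := by
    have h01 := hs.ne01
    have h02 := hs.ne02
    have h12 := hs.ne12
    intro j k hjk
    fin_cases j <;> fin_cases k
    · exact absurd rfl hjk
    · exact h01
    · exact h02
    · exact h01.symm
    · exact absurd rfl hjk
    · exact h12
    · exact h02.symm
    · exact h12.symm
    · exact absurd rfl hjk
  have hinj : Function.Injective (fun j => H73P2.Cm_pl u (ρ j) (hj j)) := by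
    intro j k hjk
    by_contra hne
    have hjk' : H73P2.Cm_pl u (ρ j) (hj j) = H73P2.Cm_pl u (ρ k) (hj k) := hjk
    have hg : e k - e j ≠ 0 := sub_ne_zero.2 (he k j (Ne.symm hne))
    obtain ⟨n, hn⟩ := exists_exp_neg_natCast_lt (x := Valued.v (e k - e j))
      ((Valuation.ne_zero_iff _).2 hg)
    obtain ⟨c, hc⟩ := u.valuation_surjective K (exp (-(n : ℤ)))
    have hc0 : c ≠ 0 := by
      rintro rfl
      rw [map_zero] at hc
      exact exp_ne_zero hc.symm
    have hcV : Valued.v (algebraMap K (u.adicCompletion K) c) < Valued.v (e k - e j) := by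
      rw [H36CY.val_coe, hc]
      exact hn
    obtain ⟨a, ha⟩ := H36CY.near_coe u (e j)
      ((map_ne_zero (algebraMap K (u.adicCompletion K))).2 hc0)
    have e1 : ρ j (algebraMap K L a - θ) = algebraMap K (u.adicCompletion K) a - e j := by
      rw [map_sub, hj, hθ]
    have e2 : ρ k (algebraMap K L a - θ) = algebraMap K (u.adicCompletion K) a - e k := by
      rw [map_sub, hj, hθ]
    have h1 := Nb_lt u (ρ j) (hj j) (x := algebraMap K L a - θ) (y := algebraMap K L c)
      ((map_ne_zero (algebraMap K L)).2 hc0) (by rw [e1, hj]; exact ha)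
    have hV : Valued.v (algebraMap K (u.adicCompletion K) c) <
        Valued.v (algebraMap K (u.adicCompletion K) a - e k) := by
      by_contra hcon
      rw [not_lt] at hcon
      have h3 : e k - e j = (algebraMap K (u.adicCompletion K) a - e j) -
          (algebraMap K (u.adicCompletion K) a - e k) := by ring
      have h4 : Valued.v (e k - e j) ≤ Valued.v (algebraMap K (u.adicCompletion K) c) := by
        rw [h3]
        exact (Valuation.map_sub _ _ _).trans (max_le ha.le hcon)
      exact absurd hcV (not_lt.2 h4)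
    have hne0 : algebraMap K L a - θ ≠ 0 := by
      intro h0
      rw [h0, map_zero] at e2
      rw [← e2, map_zero] at hV
      exact absurd hV (not_lt.2 zero_le)
    have h2 := Nb_lt u (ρ k) (hj k) (x := algebraMap K L c) (y := algebraMap K L a - θ)
      hne0 (by rw [e2, hj]; exact hV)
    rw [hjk'] at h1
    exact absurd h1 (not_lt.2 h2.le)
  have hsub : Set.range (fun j => H73P2.Cm_pl u (ρ j) (hj j)) ⊆
      {w : HeightOneSpectrum (𝓞 L) | dn K w = u} := by
    rintro w ⟨j, rfl⟩
    exact Nb_dn u (ρ j) (hj j)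
  have hcard : (Set.range (fun j => H73P2.Cm_pl u (ρ j) (hj j))).ncard = 3 := by
    rw [← Set.image_univ, Set.ncard_image_of_injective _ hinj, Set.ncard_univ,
      Nat.card_eq_fintype_card, Fintype.card_fin]
  unfold H30ZO.nb
  rw [← hcard]
  exact Set.ncard_le_ncard hsub (fin_above u)

end H76MX
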