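import Pool.Agent.H76.MX.Df
import Pool.Agent.H76.MX.Hc
import Pool.Agent.H76.MX.Nb
import Pool.Agent.H76.MQ.Sa

/-!
ROW Wa (project MP_78d38b_MX, about 200 lines): application of the walk. MODIFICATION of `walk_app` in `Pool/Agent/H76/MQ/Sa.lean` (proved; reuse its
auxiliary lemmas `Sa_la`, `Sa_eo`, `Sa_ext`, `Sa_eo1`, `Sa_odd`), with `H76MX.walkG` (Wg.lean) in place of `H76MQ.walk` and `card_XJg` (Dg.lean) in place of `card_XJ`.

`Tall = (Finset.range k).biUnion T`, `H = HH K (C.S ∪ Tall)` (finite by `H76MQ.fin_HH`) with its `ZMod 2`-module structure, `V = C.V`, `q = C.Q`, `m = finrank ℚ K + 2 |Z|`, `Ls = W`, `loc = D.loc` restricted to `H` (additive maps are `ZMod 2`-linear), `u v c = la (D.t₁ v) c`, `n v c = eo (D.t₂ v) c`, `ν = D.nu`.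
Polar form: `B p p' = ∑ u, (hsc (p u).1 (p' u).2 + hsc (p' u).1 (p u).2)`: bilinear by `hsc_add_left`, `hsc_add_right` (below: from `HF.mul` and the symmetry of `Sol`; `rep (x + y)` and `rep x * rep y` differ by a square, and `hs` does not change if an argument is
multiplied by a nonzero square). `hB`: if `B p p' = 0` for all `p'`: taking `p'` supported at `u` with one component: `hsc (p u).1 y = 0` for all `y`, so `(p u).1 = 0` by `hsc_nd` (from `HF.nd`), and the same for `(p u).2` (symmetry).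
`hV`: `card_V`, `hL`: `hW.card`, `hLq`: `hW.sing`. `hd`: `card_XJg` with `S = C.S`, `Z = C.Z`, `nb_split` (`D.hs`), and `J = S`; the type of `hd` is the subtype of `H` whose elements are exactly the classes with `D.X S` (as in Sa.lean: `n v' c = 0` for `v' ∈ Tall \ S` means even there; `eo (t₁ v') c = 0` by
`Sa_eo1`; so `c ∈ HH K (C.S ∪ S)`). `hD` (`4 A^3 + 27 B^2 ≠ 0`): from `hF.sqf q₀`. `hr`, `hk`: from `hG l`, `hG 0` as in Sa.lean. `OddP v` for `v ∈ Tall`: `v ∉ C.S` and `hC.mem2`.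
-/

set_option autoImplicit false
set_option linter.unusedSectionVars false
open scoped Classical

open WithZero NumberField IsDedekindDomain H38RT
open H38T1 (SC sc scu rep eo la si Pri OddP tp unif ka)
open H76PP H36MX H76MQ

namespace H76MX

section Hs

variable {F : Type} [Field F]

theorem Wa_sol {a b : F} (h : Sol a b) : Sol b a := by
  obtain ⟨x, y, hxy⟩ := h
  exact ⟨y, x, by rw [← hxy]; ring⟩

theorem Wa_hs_comm (a b : F) : hs a b = hs b a := by
  by_cases h : Sol a b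
  · rw [hs_eq_zero.2 h, hs_eq_zero.2 (Wa_sol h)]
  · rw [hs_eq_one.2 h, hs_eq_one.2 fun h1 => h (Wa_sol h1)]

theorem Wa_sol_sq {a b c : F} (hc : c ≠ 0) (h : Sol a b) : Sol (a * c ^ 2) b := by
  obtain ⟨x, y, hxy⟩ := h
  refine ⟨x / c, y, ?_⟩
  rw [← hxy]
  field_simp

theorem Wa_sc_eq {a a' : F} (ha : a ≠ 0) (ha' : a' ≠ 0) (h : sc a = sc a') :
    ∃ c : F, c ≠ 0 ∧ a = a' * c ^ 2 := by
  have h1 : sc (a * a') = 0 := by
    rw [H38T1.sc_mul ha ha', h, ← two_nsmul]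
    exact H38T1.SC.two_smul _
  obtain ⟨r, hr⟩ := (H38T1.sc_eq_zero (mul_ne_zero ha ha')).1 h1
  have hr0 : r ≠ 0 := by
    rintro rfl
    rw [mul_zero] at hr
    exact mul_ne_zero ha ha' hr
  refine ⟨r / a', div_ne_zero hr0 ha', ?_⟩
  field_simp
  rw [hr]
  ring

theorem Wa_hs_congr {a a' : F} (ha : a ≠ 0) (ha' : a' ≠ 0) (h : sc a = sc a') (b : F) :
    hs a b = hs a' b := by
  by_cases h0 : Sol a' b
  · obtain ⟨c, hc, hca⟩ := Wa_sc_eq ha ha' h
    rw [hs_eq_zero.2 h0, hs_eq_zero.2 (by rw [hca]; exact Wa_sol_sq hc h0)]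
  · rw [hs_eq_one.2 h0, hs_eq_one.2]
    intro h1
    obtain ⟨c, hc, hca⟩ := Wa_sc_eq ha' ha h.symm
    exact h0 (by rw [hca]; exact Wa_sol_sq hc h1)

theorem hsc_comm (x y : SC F) : hsc x y = hsc y x := by
  exact Wa_hs_comm _ _

theorem hsc_add_left (hF : HF F) (x y z : SC F) : hsc (x + y) z = hsc x z + hsc y z := by
  unfold hsc
  rw [← hF.mul _ _ _ (H38T1.rep_ne x) (H38T1.rep_ne y) (H38T1.rep_ne z)]
  refine Wa_hs_congr (H38T1.rep_ne _) (mul_ne_zero (H38T1.rep_ne x) (H38T1.rep_ne y)) ?_ _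
  rw [H38T1.sc_rep, H38T1.sc_mul (H38T1.rep_ne x) (H38T1.rep_ne y), H38T1.sc_rep, H38T1.sc_rep]

theorem Wa_add_right (hF : HF F) (x y z : SC F) : hsc x (y + z) = hsc x y + hsc x z := by
  rw [hsc_comm x (y + z), hsc_add_left hF, hsc_comm y x, hsc_comm z x]

theorem Wa_zero_left (hF : HF F) (z : SC F) : hsc 0 z = 0 := by
  have h := hsc_add_left hF 0 0 z
  rw [add_zero] at h
  exact left_eq_add.1 h

theorem Wa_zero_right (hF : HF F) (z : SC F) : hsc z 0 = 0 := by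
  rw [hsc_comm, Wa_zero_left hF]

theorem Wa_hsc_sc {a b : F} (ha : a ≠ 0) (hb : b ≠ 0) : hsc (sc a) (sc b) = hs a b := by
  unfold hsc
  rw [Wa_hs_congr (H38T1.rep_ne _) ha (H38T1.sc_rep _), Wa_hs_comm a,
    Wa_hs_congr (H38T1.rep_ne _) hb (H38T1.sc_rep _), Wa_hs_comm b]

theorem hsc_nd (hF : HF F) {x : SC F} (hx : x ≠ 0) : ∃ y : SC F, hsc x y = 1 := by
  obtain ⟨a, ha, rfl⟩ := H38T1.sc_surj x
  obtain ⟨b, hb, hab⟩ := hF.nd a ha fun h => hx ((H38T1.sc_eq_zero ha).2 h)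
  exact ⟨sc b, by rw [Wa_hsc_sc ha hb]; exact hab⟩

theorem hsc_sc (hF : HF F) {a b : F} (ha : a ≠ 0) (hb : b ≠ 0) : hsc (sc a) (sc b) = hs a b := by
  exact Wa_hsc_sc ha hb

end Hs

variable {K L : Type} [Field K] [NumberField K] [Field L] [NumberField L] [Algebra K L]

theorem Wa_bil {V : Type} [AddCommGroup V] [Module (ZMod 2) V] (f : V → V → ZMod 2)
    (h1 : ∀ x y z, f (x + y) z = f x z + f y z) (h2 : ∀ x y z, f x (y + z) = f x y + f x z) :
    ∃ B : LinearMap.BilinForm (ZMod 2) V, ∀ x y, B x y = f x y := by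
  have hc : ∀ c : ZMod 2, c = 0 ∨ c = 1 := by decide
  refine ⟨LinearMap.mk₂ (ZMod 2) f h1 ?_ h2 ?_, fun x y => rfl⟩
  · intro c x z
    rcases hc c with rfl | rfl
    · have h := h1 0 0 z
      rw [add_zero] at h
      rw [zero_smul, zero_smul]
      exact left_eq_add.1 h
    · rw [one_smul, one_smul]
  · intro c x z
    rcases hc c with rfl | rfl
    · have h := h2 x 0 0
      rw [add_zero] at h
      rw [zero_smul, zero_smul]
      exact left_eq_add.1 h
    · rw [one_smul, one_smul]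

theorem Wa_B (C : CfgX K) (hH : ∀ v : HeightOneSpectrum (𝓞 K), HF (Kv v)) :
    ∃ B : LinearMap.BilinForm (ZMod 2) C.V, (∀ x y : C.V, C.Q (x + y) = C.Q x + C.Q y + B x y) ∧
      ∀ x : C.V, (∀ y, B x y = 0) → x = 0 := by
  obtain ⟨B, hB⟩ := Wa_bil (V := C.V)
    (fun p p' => ∑ u, (hsc (p u).1 (p' u).2 + hsc (p' u).1 (p u).2)) (by
      intro x y z
      rw [← Finset.sum_add_distrib]
      refine Finset.sum_congr rfl fun u _ => ?_
      show hsc ((x u).1 + (y u).1) (z u).2 + hsc (z u).1 ((x u).2 + (y u).2) = _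
      rw [hsc_add_left (hH u.1), Wa_add_right (hH u.1)]
      abel) (by
      intro x y z
      rw [← Finset.sum_add_distrib]
      refine Finset.sum_congr rfl fun u _ => ?_
      show hsc (x u).1 ((y u).2 + (z u).2) + hsc ((y u).1 + (z u).1) (x u).2 = _
      rw [hsc_add_left (hH u.1), Wa_add_right (hH u.1)]
      abel)
  refine ⟨B, fun x y => ?_, fun x hx => ?_⟩
  · rw [hB]
    unfold CfgX.Q
    rw [← Finset.sum_add_distrib, ← Finset.sum_add_distrib]
    refine Finset.sum_congr rfl fun u _ => ?_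
    show hsc ((x u).1 + (y u).1) ((x u).2 + (y u).2) = _
    rw [hsc_add_left (hH u.1), Wa_add_right (hH u.1), Wa_add_right (hH u.1)]
    abel
  · funext u₀
    have hs1 : ∀ z : SC (Kv u₀.1) × SC (Kv u₀.1), hsc (x u₀).1 z.2 + hsc z.1 (x u₀).2 = 0 := by
      intro z
      have h := hx (Pi.single u₀ z)
      rw [hB, Finset.sum_eq_single u₀] at h
      · rw [Pi.single_eq_same] at h
        exact h
      · intro u _ hu
        rw [Pi.single_eq_of_ne hu]
        show hsc (x u).1 0 + hsc 0 (x u).2 = 0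
        rw [Wa_zero_left (hH u.1), Wa_zero_right (hH u.1), add_zero]
      · intro h1
        exact absurd (Finset.mem_univ _) h1
    have h1 : (x u₀).1 = 0 := by
      by_contra h0
      obtain ⟨y, hy⟩ := hsc_nd (hH u₀.1) h0
      have h2 := hs1 (0, y)
      rw [Wa_zero_left (hH u₀.1), add_zero, hy] at h2
      exact absurd h2 (by decide)
    have h2 : (x u₀).2 = 0 := by
      by_contra h0
      obtain ⟨y, hy⟩ := hsc_nd (hH u₀.1) h0
      have h3 := hs1 (y, 0)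
      rw [Wa_zero_right (hH u₀.1), zero_add, hsc_comm, hy] at h3
      exact absurd h3 (by decide)
    exact Prod.ext h1 h2

theorem Wa_walk {H V : Type} [AddCommGroup H] (h2 : ∀ x : H, 2 • x = 0) [Finite H] [AddCommGroup V]
    [Module (ZMod 2) V] [Finite V] {ι : Type} (q : V → ZMod 2) (B : LinearMap.BilinForm (ZMod 2) V)
    (hpol : ∀ x y, q (x + y) = q x + q y + B x y) (hB : ∀ x, (∀ y, B x y = 0) → x = 0)
    {m : ℕ} (hV : Nat.card V ≤ 2 ^ (2 * m)) (Ls : Submodule (ZMod 2) V) (hLq : ∀ x ∈ Ls, q x = 0)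
    (hL : 2 ^ m ≤ Nat.card Ls) (loc : H →+ V)
    (u n : ι → H →+ ZMod 2) (ν : ι → ZMod 2) (k : ℕ)
    (T : ℕ → Finset ι) (hT : ∀ i < k, ∀ j < k, i ≠ j → Disjoint (T i) (T j))
    (hq : ∀ c : H, q (loc c) + ∑ v ∈ (Finset.range k).biUnion T, n v c * (u v c + ν v) = 0)
    (hd : ∀ S ⊆ (Finset.range k).biUnion T, 2 ^ m ≤
      Nat.card {c : H // (∀ v ∈ (Finset.range k).biUnion T, v ∉ S → n v c = 0) ∧
        ∀ v ∈ S, u v c = ν v * n v c})
    (hr : ∀ l < k, ∀ φ : H →+ ZMod 2, ∃ v ∈ T l, ∀ c : H,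
      (∀ v' ∈ (Finset.range k).biUnion T, v' ∉ (Finset.range l).biUnion T → n v' c = 0) →
      u v c = φ c)
    (hk : Nat.card {c : H // ∀ v ∈ (Finset.range k).biUnion T, n v c = 0} * 2 ^ m ≤ 2 ^ k) :
    ∃ S ⊆ (Finset.range k).biUnion T, ∀ c : H,
      (∀ v ∈ (Finset.range k).biUnion T, v ∉ S → n v c = 0) →
      (∀ v ∈ S, u v c = ν v * n v c) → loc c ∈ Ls ∧ (loc c = 0 → c = 0) := by
  let _ : Module (ZMod 2) H := AddCommGroup.zmodModule h2
  exact walkG q B hpol hB hV Ls hLq hL (loc.toZModLinearMap 2)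
    (fun p => (u p).toZModLinearMap 2) (fun p => (n p).toZModLinearMap 2) ν k T hT hq hd
    (fun l hl φ => hr l hl φ.toAddMonoidHom) hk

theorem Wa_odd {C : CfgX K} (hC : C.Ok) {v : HeightOneSpectrum (𝓞 K)} (hv : v ∉ C.S) : OddP v := by
  have h2 : (2 : 𝓞 K) ∉ v.asIdeal := fun h =>
    hv (Finset.mem_union_left _ (hC.mem2 v h))
  have h3 := (v.valuation_eq_one_iff_notMem (K := K) (r := (2 : 𝓞 K))).2 h2
  unfold H38T1.OddP
  rw [← h3]
  congr 1

theorem Wa_dsc {q : HeightOneSpectrum (𝓞 K)} {A B : 𝓞 K} (h : dsc A B ∉ q.asIdeal ^ 2) :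
    4 * (A : K) ^ 3 + 27 * (B : K) ^ 2 ≠ 0 := by
  intro h1
  apply h
  have h2 : dsc A B = 0 := by
    apply FaithfulSMul.algebraMap_injective (𝓞 K) K
    unfold dsc
    rw [map_zero, map_add, map_mul, map_mul, map_pow, map_pow, map_ofNat, map_ofNat]
    exact h1
  rw [h2]
  exact Ideal.zero_mem _

theorem walk_appX {C : CfgX K} (hC : C.Ok) (hH : ∀ v : HeightOneSpectrum (𝓞 K), HF (Kv v))
    {Δ : Set (𝓞 K)} {x : (u : HeightOneSpectrum (𝓞 K)) → 𝓞 K → SC (Kv u)}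
    {W : Submodule (ZMod 2) C.V} (hW : Target C Δ x W)
    {q₀ : HeightOneSpectrum (𝓞 K)} (hq : q₀ ∉ C.S) {k : ℕ} (hk0 : 0 < k)
    (T : ℕ → Finset (HeightOneSpectrum (𝓞 K))) (b : ℕ → ℕ)
    (hdis : ∀ i < k, ∀ j < k, i ≠ j → Disjoint (T i) (T j))
    (hT : ∀ v ∈ (Finset.range k).biUnion T, v ∉ C.S ∧ v ≠ q₀) {A B : 𝓞 K}
    {e : (u : HeightOneSpectrum (𝓞 K)) → Fin 3 → Kv u}
    (hF : FamX C q₀ ((Finset.range k).biUnion T) A B e)
    (hG : ∀ l < k, GoodSt (C.S ∪ (Finset.range l).biUnion T) (T l) (b l) A B)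
    (hk : b 0 * 2 ^ (Module.finrank ℚ K + 2 * C.Z.card) ≤ 2 ^ k) {θ : L} (hR : HR2 K L A B θ)
    (D : XData C ((Finset.range k).biUnion T) A B e θ)
    (hrec : ∀ c : SC L, c ∈ (HH K (C.S ∪ (Finset.range k).biUnion T) : AddSubgroup (SC L)) →
      C.Q (D.loc c) + ∑ v ∈ (Finset.range k).biUnion T,
        eo (D.t₂ v) c * (la (D.t₁ v) c + D.nu v) = 0) :
    ∃ J ⊆ (Finset.range k).biUnion T, ∀ c : SC L, D.X J c →
      D.loc c ∈ W ∧ (D.loc c = 0 → c = 0) := by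
  have hodd : ∀ v ∈ (Finset.range k).biUnion T, OddP v := fun v hv => Wa_odd hC (hT v hv).1
  have hodd1 : ∀ v ∈ (Finset.range k).biUnion T, OddP (D.t₁ v) := fun v hv => by
    rw [oddP_dn (K := K), (D.hT v hv).dn1]
    exact hodd v hv
  -- monotonicity
  have hmono : ∀ S ⊆ (Finset.range k).biUnion T, ∀ c : SC L,
      c ∈ (HH K (C.S ∪ S) : AddSubgroup (SC L)) →
      c ∈ (HH K (C.S ∪ (Finset.range k).biUnion T) : AddSubgroup (SC L)) ∧
        ∀ v ∈ (Finset.range k).biUnion T, v ∉ S → eo (D.t₂ v) c = 0 := by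
    intro S hS c hc
    rw [mem_HH] at hc ⊢
    refine ⟨⟨hc.1, fun w hw => hc.2 w fun h0 => hw ?_⟩, fun v hv hvS => hc.2 _ ?_⟩
    · rcases Finset.mem_union.1 h0 with h1 | h1
      · exact Finset.mem_union_left _ h1
      · exact Finset.mem_union_right _ (hS h1)
    · rw [(D.hT v hv).dn2]
      intro h0
      rcases Finset.mem_union.1 h0 with h1 | h1
      · exact (hT v hv).1 h1
      · exact hvS h1
  have hback : ∀ S : Finset (HeightOneSpectrum (𝓞 K)), ∀ c : SC L,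
      c ∈ (HH K (C.S ∪ (Finset.range k).biUnion T) : AddSubgroup (SC L)) →
      (∀ v ∈ (Finset.range k).biUnion T, v ∉ S → eo (D.t₂ v) c = 0) →
      c ∈ (HH K (C.S ∪ S) : AddSubgroup (SC L)) := by
    intro S c hc h0
    rw [mem_HH] at hc ⊢
    refine ⟨hc.1, fun w hw => ?_⟩
    by_cases hw' : dn K w ∈ C.S ∪ (Finset.range k).biUnion T
    · rcases Finset.mem_union.1 hw' with h1 | h1
      · exact absurd (Finset.mem_union_left _ h1) hw
      · have h3 : dn K w ∉ S := fun h4 => hw (Finset.mem_union_right _ h4)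
        rcases (D.hT (dn K w) h1).only w rfl with h5 | h5
        · rw [h5]
          exact Sa_eo1 D.h hR (hodd _ h1) (D.hT (dn K w) h1).toTwG hc.1
        · rw [h5]
          exact h0 _ h1 h3
    · exact hc.2 w hw'
  have : Finite (HH K (C.S ∪ (Finset.range k).biUnion T) : AddSubgroup (SC L)) := fin_HH K _
  have : Finite C.V := fin_V C
  obtain ⟨Bf, hpol, hnd⟩ := Wa_B C hH
  have key := Wa_walk (H := (HH K (C.S ∪ (Finset.range k).biUnion T) : AddSubgroup (SC L)))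
    (V := C.V) (ι := HeightOneSpectrum (𝓞 K))
    (fun x => Subtype.ext (H38T1.SC.two_smul x.1)) C.Q Bf hpol hnd
    (m := Module.finrank ℚ K + 2 * C.Z.card) (card_V hC).le W hW.sing hW.card
    (D.loc.comp (AddSubgroup.subtype _))
    (fun v => Sa_la _ (D.t₁ v)) (fun v => Sa_eo _ (D.t₂ v)) D.nu k T hdis ?_ ?_ ?_ ?_
  · obtain ⟨S, hS, hS2⟩ := key
    refine ⟨S, hS, fun c hc => ?_⟩
    obtain ⟨hc1, hc2⟩ := hc
    obtain ⟨hc3, hc4⟩ := hmono S hS c hc1
    obtain ⟨h5, h6⟩ := hS2 ⟨c, hc3⟩ hc4 (fun v hv => by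
      rw [Sa_la_apply (hodd1 v (hS hv))]
      exact hc2 v hv)
    exact ⟨h5, fun h7 => congrArg Subtype.val (h6 h7)⟩
  · -- hq
    intro c
    refine Eq.trans ?_ (hrec c.1 c.2)
    refine congrArg (fun z => C.Q (D.loc c.1) + z) ?_
    refine Finset.sum_congr rfl fun v hv => ?_
    rw [Sa_la_apply (hodd1 v hv)]
    rfl
  · -- hd
    intro S hS
    have hcX := card_XJg D.h (Wa_dsc (hF.sqf q₀ hq)) (S := C.S) (Z := C.Z) (J := S)
      Finset.subset_union_left (fun v hv => nb_split D.h (D.hs v hv)) D.t₁ D.t₂ D.nu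
      (fun v hv => ⟨(hT v (hS hv)).1, hodd v (hS hv), (D.hT v (hS hv)).toTwG⟩)
    refine hcX.trans ?_
    refine Nat.card_le_card_of_injective
      (fun c : {c : SC L // c ∈ (HH K (C.S ∪ S) : AddSubgroup (SC L)) ∧
          ∀ v ∈ S, la (D.t₁ v) c = D.nu v * eo (D.t₂ v) c} => (⟨⟨c.1, (hmono S hS c.1 c.2.1).1⟩,
        (hmono S hS c.1 c.2.1).2, fun v hv => by
          rw [Sa_la_apply (hodd1 v (hS hv))]
          exact c.2.2 v hv⟩ :
        {c : (HH K (C.S ∪ (Finset.range k).biUnion T) : AddSubgroup (SC L)) //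
          (∀ v ∈ (Finset.range k).biUnion T, v ∉ S → Sa_eo _ (D.t₂ v) c = 0) ∧
          ∀ v ∈ S, Sa_la _ (D.t₁ v) c = D.nu v * Sa_eo _ (D.t₂ v) c})) ?_
    intro c c' hcc
    have h1 := congrArg (fun z => z.1.1) hcc
    exact Subtype.ext h1
  · -- hr
    intro l hl φ
    obtain ⟨ψ, hψ⟩ := Sa_ext _ φ
    obtain ⟨v, hv, hv2⟩ := (hG l hl L θ D.h).2.2 ψ
    refine ⟨v, hv, fun c hc => ?_⟩
    have hvT : v ∈ (Finset.range k).biUnion T := Finset.mem_biUnion.2 ⟨l, Finset.mem_range.2 hl, hv⟩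
    rw [Sa_la_apply (hodd1 v hvT), hv2 c.1 (hback _ c.1 c.2 hc) _ (D.hT v hvT).dn1, hψ c.1 c.2]
  · -- hk
    refine le_trans (Nat.mul_le_mul_right _ ?_) hk
    obtain ⟨h1, h2, -⟩ := hG 0 hk0 L θ D.h
    refine le_trans ?_ h2
    have := h1
    refine Nat.card_le_card_of_injective
      (fun c : {c : (HH K (C.S ∪ (Finset.range k).biUnion T) : AddSubgroup (SC L)) //
          ∀ v ∈ (Finset.range k).biUnion T, Sa_eo _ (D.t₂ v) c = 0} =>
        (⟨c.1.1, hback _ c.1.1 c.1.2 fun v hv _ => c.2 v hv⟩ :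
          (HH K (C.S ∪ (Finset.range 0).biUnion T) : AddSubgroup (SC L)))) ?_
    intro c c' hcc
    have h3 := congrArg (fun z => z.1) hcc
    exact Subtype.ext (Subtype.ext h3)

end H76MX
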