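import Pool.Agent.H76.MX.Df
import Pool.Agent.H76.MX.Wa
import Pool.Agent.H88.MX.Ee

/-!
ROW Tr (project MP_78d38b_MX, about 250 lines): existence of the target subgroup. Use only the STATEMENTS of Wa (`hsc_comm`, `hsc_add_left`, `hsc_nd`), Hc
(`prod_scv`, `fin_scv`) and the (proved) files H88/MX/Ea, Ec, Ee.

hscL: the bilinear map with values `hsc`; additivity in the second argument by `hsc_comm`; over `ZMod 2` every additive map is linear (`AddMonoidHom.toZModLinearMap`, or check `map_smul'` on the two elements of `ZMod 2`).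

target_of. `Rj : C.V → ∀ j, SC (Kv (pl j)) × SC (Kv (pl j))`, `Rj p j = p ⟨pl j, _⟩`, is linear, injective (`hZ`) and surjective: for `q` take `p u = q j` transported along `pl j = u` for the unique `j` (construct the inverse with `Equiv.ofBijective` for `j ↦ ⟨pl j, _⟩ : J → {u // u ∈ C.Z}` and
`Equiv.piCongrLeft`, or prove surjectivity with `Function.Injective` + finite cardinalities: `Nat.card C.V = ∏ u ∈ C.Z, card^2 = ∏ j, card^2`). `W = W₀.comap Rj`. sing: `C.Q p = ∑ u, hsc .. = ∑ j, hsc ((Rj p) j).1 ((Rj p) j).2` (sum over the bijection, `Fintype.sum_equiv`/`Finset.sum_bij`). card: `W ≃ W₀`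
(`Rj` bijective), `∏ j, Nat.card (SC (Kv (pl j))) = ∏ v ∈ C.Z, Nat.card (SC (Kv v)) = 2 ^ (..)` by `prod_scv` (`hC.mem2`). zero: every `u : {u // u ∈ C.Z}` is `⟨pl j, _⟩`, so `LW` for all `u` gives `LW` for all `j`, so `Rj p = 0` and `p = 0`.

exists_target. Apply `target_of` with `W₀ = Wst h 0 EJ lam`, `h j = hscL`, `EJ` on `J = P × Nd D r` (H88/MX/Ec.lean), and `lam`: for `j = (p, node)` with `node ≠ none`: `lam j k = μ (pl j)` for all `k`, where `hsc (η u) (μ u) = 1` (`hsc_nd`, `hη`, symmetry);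
for `j = (p, none)`: `lam j k = μ' p δ` if `k = (_, ndA δ i)`, with `hsc (y p δ) (μ' p δ) = 1` (`hsc_nd`, `hy`), and `0` for other `k`. hs: `Q_W0` (`EJ_symm`, `EJ_irr`). hc: `card_W` (`hsc_nd`). hz: let `d ∈ Δ`, `δ₀ = cl d`; `graph_zero0` with `g j = x (pl j) d`, `on p i δ := gg i δ = gg i δ₀`:
h0 trivial; hsep: `hgg`; hon: at `(p, ndA δ i)` (`hx2`): `g = η` as `gg i (cl d) = gg i δ`; hoff: `hx2` gives `0`; hw: `hx1`; hc: `hx0`: `g (p, none) = y p δ₀`; hloc: `LW` (for `hsc q.2 g = 0`).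
-/

set_option autoImplicit false
set_option linter.unusedSectionVars false
open scoped Classical

open WithZero NumberField IsDedekindDomain H38RT
open H38T1 (SC sc scu rep eo la si Pri OddP tp unif ka)
open H76PP H36MX H76MQ

namespace H76MX

theorem exists_hscL {F : Type} [Field F] (hF : HF F) :
    ∃ h : SC F →ₗ[ZMod 2] SC F →ₗ[ZMod 2] ZMod 2, ∀ x y, h x y = hsc x y := by
  have hz : ∀ y : SC F, hsc (0 : SC F) y = 0 := by
    intro y
    have h1 := hsc_add_left hF 0 0 y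
    rw [add_zero] at h1
    exact left_eq_add.1 h1
  have hz' : ∀ x : SC F, hsc x (0 : SC F) = 0 := fun x => by rw [hsc_comm, hz]
  have ha' : ∀ x y z : SC F, hsc x (y + z) = hsc x y + hsc x z := fun x y z => by
    rw [hsc_comm, hsc_add_left hF, hsc_comm y, hsc_comm z]
  let g : SC F → SC F →ₗ[ZMod 2] ZMod 2 := fun x =>
    AddMonoidHom.toZModLinearMap 2 (⟨⟨hsc x, hz' x⟩, ha' x⟩ : SC F →+ ZMod 2)
  have hg0 : g 0 = 0 := LinearMap.ext fun y => hz y
  have hga : ∀ x x', g (x + x') = g x + g x' := fun x x' =>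
    LinearMap.ext fun y => hsc_add_left hF x x' y
  exact ⟨AddMonoidHom.toZModLinearMap 2 (⟨⟨g, hg0⟩, hga⟩ : SC F →+ (SC F →ₗ[ZMod 2] ZMod 2)),
    fun x y => rfl⟩

variable {K : Type} [Field K] [NumberField K]

theorem target_of {C : CfgX K} (hC : C.Ok) {J : Type} [Fintype J]
    (pl : J → HeightOneSpectrum (𝓞 K)) (hinj : Function.Injective pl)
    (hZ : ∀ u, u ∈ C.Z ↔ ∃ j, pl j = u) (Δ : Set (𝓞 K))
    (x : (u : HeightOneSpectrum (𝓞 K)) → 𝓞 K → SC (Kv u))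
    (W₀ : Submodule (ZMod 2) (∀ j, SC (Kv (pl j)) × SC (Kv (pl j))))
    (hs : ∀ p ∈ W₀, ∑ j, hsc (p j).1 (p j).2 = 0)
    (hc : Nat.card W₀ = ∏ j, Nat.card (SC (Kv (pl j))))
    (hz : ∀ d ∈ Δ, ∀ p ∈ W₀, (∀ j, LW (x (pl j) d) (p j).1 (p j).2) → p = 0) :
    ∃ W : Submodule (ZMod 2) C.V, Target C Δ x W := by
  have hbij : Function.Bijective (fun j : J => (⟨pl j, (hZ _).2 ⟨j, rfl⟩⟩ : {u // u ∈ C.Z})) := by
    constructor
    · intro i j h
      exact hinj (congrArg Subtype.val h)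
    · rintro ⟨u, hu⟩
      obtain ⟨j, hj⟩ := (hZ u).1 hu
      exact ⟨j, Subtype.ext hj⟩
  let β : J ≃ {u // u ∈ C.Z} := Equiv.ofBijective _ hbij
  let E : C.V ≃ₗ[ZMod 2] (∀ j, SC (Kv (pl j)) × SC (Kv (pl j))) :=
    (LinearEquiv.piCongrLeft (ZMod 2)
      (fun u : {u // u ∈ C.Z} => SC (Kv u.1) × SC (Kv u.1)) β).symm
  refine ⟨W₀.comap E.toLinearMap, ?_, ?_, ?_⟩
  · intro p hp
    have h1 := hs (E p) hp
    unfold CfgX.Q
    rw [← Equiv.sum_comp β (fun u => hsc (p u).1 (p u).2)]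
    exact h1
  · have h1 : Nat.card (W₀.comap E.toLinearMap) = Nat.card W₀ :=
      Nat.card_congr (E.toEquiv.subtypeEquiv fun p => Iff.rfl)
    have h2 : C.Z = Finset.univ.image pl := by
      ext u
      rw [hZ, Finset.mem_image]
      exact ⟨fun ⟨j, hj⟩ => ⟨j, Finset.mem_univ _, hj⟩, fun ⟨j, _, hj⟩ => ⟨j, hj⟩⟩
    have h3 := prod_scv (Z := C.Z) hC.mem2
    have h4 : ∏ v ∈ C.Z, Nat.card (SC (Kv v)) = ∏ j, Nat.card (SC (Kv (pl j))) := by
      rw [h2, Finset.prod_image fun a _ b _ h => hinj h]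
    rw [h1, hc, ← h4, h3]
  · intro d hd p hp h
    have h1 : E p = 0 := hz d hd (E p) hp fun j => h ⟨pl j, (hZ _).2 ⟨j, rfl⟩⟩
    exact (LinearEquiv.map_eq_zero_iff E).1 h1

private theorem Tr_abs {P D : Type} [Fintype P] [Fintype D] {r : ℕ} (hr : 0 < r)
    {X : P × Nd D r → Type} [∀ j, AddCommGroup (X j)] [∀ j, Module (ZMod 2) (X j)]
    [∀ j, Finite (X j)] (h : ∀ j, X j →ₗ[ZMod 2] X j →ₗ[ZMod 2] ZMod 2)
    (hsy : ∀ j x y, h j x y = h j y x) (hnd : ∀ j x, x ≠ 0 → ∃ y, h j x y = 1)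
    (η : ∀ j, X j) (hη : ∀ j, η j ≠ 0) (y : (p : P) → D → X (p, none))
    (hy : ∀ p δ, y p δ ≠ 0) (gg : Fin r → D → ZMod 2)
    (hgg : ∀ δ δ', δ ≠ δ' → ∃ i, gg i δ ≠ gg i δ') :
    ∃ W₀ : Submodule (ZMod 2) (∀ j, X j × X j),
      (∀ p ∈ W₀, ∑ j, h j (p j).1 (p j).2 = 0) ∧
      Nat.card W₀ = ∏ j, Nat.card (X j) ∧
      ∀ (δ₀ : D) (g : ∀ j, X j), (∀ p, g (p, none) = y p δ₀) →
        (∀ p, g (p, some none) = η (p, some none)) →
        (∀ p δ i b, g (p, some (some (δ, i, b))) =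
          if gg i δ₀ = gg i δ then η (p, some (some (δ, i, b))) else 0) →
        ∀ q ∈ W₀, (∀ j, ((q j).1 = 0 ∨ (q j).1 = g j) ∧ h j (q j).2 (g j) = 0) → q = 0 := by
  choose μ hμ using fun j => hnd j (η j) (hη j)
  choose μ' hμ' using fun p δ => hnd (p, none) (y p δ) (hy p δ)
  obtain ⟨lam, hl1, hl2⟩ : ∃ lam : (j : P × Nd D r) → (P × Nd D r) → X j,
      (∀ p n k, lam (p, some n) k = μ (p, some n)) ∧
      (∀ p δ i k, lam (p, none) (k, ndA δ i) = μ' p δ) :=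
    ⟨fun j k => match j with
      | (p, some n) => μ (p, some n)
      | (p, none) => match k.2 with
        | some (some (δ, _, false)) => μ' p δ
        | _ => 0, fun _ _ _ => rfl, fun _ _ _ _ => rfl⟩
  refine ⟨Wst h 0 EJ lam, fun p hp => Q_W0 (Ed := EJ) hsy (fun _ _ e => EJ_symm e) EJ_irr hp,
    card_W hnd 0 EJ lam, ?_⟩
  intro δ₀ g g0 g1 g2 q hq hloc
  refine graph_zero0 hsy hnd hr g (fun _ i δ => gg i δ = gg i δ₀) δ₀
    (fun _ _ => rfl) (fun _ δ hδ => hgg δ δ₀ hδ) ?_ ?_ ?_ ?_ hq hloc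
  · intro p δ i hon z
    refine ⟨fun _ => ?_, fun _ => ?_⟩
    · rw [hl1, g2 p δ i false, if_pos hon.symm]
      exact hμ _
    · rw [hl1, g2 p δ i true, if_pos hon.symm]
      exact hμ _
  · intro p δ i hon
    refine ⟨?_, ?_⟩
    · rw [g2 p δ i false, if_neg fun h => hon h.symm]
    · rw [g2 p δ i true, if_neg fun h => hon h.symm]
  · intro p z _
    rw [hl1, g1]
    exact hμ _
  · intro p i _
    rw [hl2, g0]
    exact hμ' _ _

theorem exists_target {C : CfgX K} (hC : C.Ok) (hH : ∀ v : HeightOneSpectrum (𝓞 K), HF (Kv v))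
    {P D : Type} [Fintype P] [Fintype D] {r : ℕ} (hr : 0 < r)
    (pl : P × Nd D r → HeightOneSpectrum (𝓞 K)) (hinj : Function.Injective pl)
    (hZ : ∀ u, u ∈ C.Z ↔ ∃ j, pl j = u) (Δ : Set (𝓞 K))
    (x : (u : HeightOneSpectrum (𝓞 K)) → 𝓞 K → SC (Kv u))
    (η : (u : HeightOneSpectrum (𝓞 K)) → SC (Kv u)) (hη : ∀ u, η u ≠ 0)
    (cl : 𝓞 K → D) (gg : Fin r → D → ZMod 2) (hgg : ∀ δ δ', δ ≠ δ' → ∃ i, gg i δ ≠ gg i δ')
    (y : (p : P) → D → SC (Kv (pl (p, none)))) (hy : ∀ p δ, y p δ ≠ 0)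
    (hx0 : ∀ p, ∀ d ∈ Δ, x (pl (p, none)) d = y p (cl d))
    (hx1 : ∀ p, ∀ d ∈ Δ, x (pl (p, some none)) d = η (pl (p, some none)))
    (hx2 : ∀ p δ i b, ∀ d ∈ Δ, x (pl (p, some (some (δ, i, b)))) d =
      if gg i (cl d) = gg i δ then η (pl (p, some (some (δ, i, b)))) else 0) :
    ∃ W : Submodule (ZMod 2) C.V, Target C Δ x W := by
  choose h hh using fun j => exists_hscL (hH (pl j))
  have hsy : ∀ j x y, h j x y = h j y x := fun j x y => by rw [hh, hh, hsc_comm]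
  have hnd : ∀ j x, x ≠ 0 → ∃ y, h j x y = 1 := by
    intro j x hx
    obtain ⟨y, hy⟩ := hsc_nd (hH (pl j)) hx
    exact ⟨y, by rw [hh]; exact hy⟩
  have hfin : ∀ j, Finite (SC (Kv (pl j))) := fun j => fin_scv _
  obtain ⟨W₀, h1, h2, h3⟩ := @Tr_abs P D _ _ r hr (fun j => SC (Kv (pl j)))
    (fun j => inferInstance) (fun j => inferInstance) hfin h hsy hnd (fun j => η (pl j))
    (fun j => hη _) y hy gg hgg
  refine target_of hC pl hinj hZ Δ x W₀ ?_ h2 ?_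
  · intro p hp
    have h4 := h1 p hp
    simp only [hh] at h4
    exact h4
  · intro d hd q hq hloc
    refine h3 (cl d) (fun j => x (pl j) d) (fun p => hx0 p d hd) (fun p => hx1 p d hd)
      (fun p δ i b => hx2 p δ i b d hd) q hq fun j => ⟨(hloc j).1, ?_⟩
    rw [hh]
    exact (hloc j).2

end H76MX
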