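import Pool.Agent.H76.MX.Cx
import Pool.Agent.H76.MQ.Fq

/-!
ROW Cy (project MP_78d38b_MX, about 150 lines): the residue class. Compare `exists_class` in `Pool/Agent/H76/MQ/Fq.lean` (proved).

PROOF. Apply `H76MQ.Fq_cls` with `S := C.S`, `R := ∅` and `(e v, Av v, Bv v)` = `(N, -91, -330)` for `v` above two (`hdy v`; such `v` are in `C.Z`), `(N, a, b)` from `hax v _ (s v)` for `v ∈ C.Z` not above two (`hZ6`), `(1, -1, b v)` for `v ∈ C.R`, `b v` from `H30PN.Rm_noroot v`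
(`C.R` and `C.Z` are disjoint). `dsc ∉`: for `R` as in Fq.lean (`v` odd). We get `m, E, A₀, B₀`. bot, inS, out: given. two: take a place `u` above two (`H76MQ.Re_two`-type lemma, or `exists`: some prime contains 2); `dsc (-91) (-330) = -73984 = -(272^2) ∈ u` (and `N ≥ 1` as `dsc ∉ u^N`), and `A₀ ≡ -91`, `B₀ ≡ -330` modulo `u^N ≤ u`
(last property with `A := A₀`), so `dsc A₀ B₀ ∈ u`, so `E ≠ 1` (`1 ≤ E`, inS). res: last property at `v ∈ C.R`: `A - (-1) ∈ v`, `B - b v ∈ v`, so `t^3 + A t + B ∈ v` would give `t^3 - t + b v ∈ v`. loc: for `u` above two `hdy`, with `xX` unfolded (`if_pos`), otherwise `hax` with `s u` (`if_neg`), `hΔ` gives `d ≠ 0`, `eo = 0`.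
-/

set_option autoImplicit false
set_option linter.unusedSectionVars false
open scoped Classical

open WithZero NumberField IsDedekindDomain H38RT
open H38T1 (SC sc scu rep eo la si Pri OddP tp unif ka)
open H76PP H36MX H76MQ

namespace H76MX

variable {K : Type} [Field K] [NumberField K]

private theorem Cy_two_not_unit (K : Type) [Field K] [NumberField K] : ¬ IsUnit (2 : 𝓞 K) := by
  intro h
  obtain ⟨u, hu⟩ := h.exists_right_inv
  have h1 : IsIntegral ℤ ((u : 𝓞 K) : K) := RingOfIntegers.isIntegral_coe u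
  have h2 : ((u : 𝓞 K) : K) = algebraMap ℚ K (1 / 2) := by
    have h3 := congrArg (algebraMap (𝓞 K) K) hu
    rw [map_mul, map_ofNat, map_one] at h3
    rw [map_div₀, map_one, map_ofNat, eq_div_iff (two_ne_zero)]
    rw [mul_comm]
    exact h3
  rw [h2] at h1
  have h3 : IsIntegral ℤ (1 / 2 : ℚ) :=
    (isIntegral_algebraMap_iff (algebraMap ℚ K).injective).1 h1
  obtain ⟨n, hn⟩ := IsIntegrallyClosed.isIntegral_iff.1 h3
  have h4 : (2 * n : ℤ) = 1 := by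
    have h5 : ((2 * n : ℤ) : ℚ) = ((1 : ℤ) : ℚ) := by
      push_cast
      have : (n : ℚ) = 1 / 2 := hn
      rw [this]
      norm_num
    exact_mod_cast h5
  omega

private theorem Cy_exists_two (K : Type) [Field K] [NumberField K] :
    ∃ v : HeightOneSpectrum (𝓞 K), (2 : 𝓞 K) ∈ v.asIdeal := by
  obtain ⟨M, hM, h2⟩ := exists_max_ideal_of_mem_nonunits (Cy_two_not_unit K)
  refine ⟨⟨M, hM.isPrime, ?_⟩, h2⟩
  rintro rfl
  exact two_ne_zero (Ideal.mem_bot.1 h2)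

theorem exists_classX {C : CfgX K} (hC : C.Ok)
    {η : (u : HeightOneSpectrum (𝓞 K)) → SC (Kv u)} (hdy : DyadicClass η) (hax : AuxClass η)
    (hZR : ∀ v ∈ C.Z, v ∉ C.R) (hZ6 : ∀ u ∈ C.Z, (2 : 𝓞 K) ∉ u.asIdeal → (6 : 𝓞 K) ∉ u.asIdeal)
    (s : HeightOneSpectrum (𝓞 K) → ZMod 2) {Δ : Set (𝓞 K)}
    (hΔ : ∀ d ∈ Δ, d ≠ 0 ∧ ∀ u ∈ C.Z, (2 : 𝓞 K) ∉ u.asIdeal → eo u (sc (d : K)) = 0) :
    ∃ (m : Ideal (𝓞 K)) (E : ℕ) (A₀ B₀ : 𝓞 K), ClassX C Δ (xX η s) m E A₀ B₀ := by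
  choose b hb using fun v : HeightOneSpectrum (𝓞 K) => H30PN.Rm_noroot v
  obtain ⟨N, hN⟩ : ∃ N : HeightOneSpectrum (𝓞 K) → ℕ, ∀ u : HeightOneSpectrum (𝓞 K),
      (2 : 𝓞 K) ∈ u.asIdeal →
      dsc (-91 : 𝓞 K) (-330) ∉ u.asIdeal ^ (N u) ∧ ∀ A B : 𝓞 K, A - (-91) ∈ u.asIdeal ^ (N u) →
      B - (-330) ∈ u.asIdeal ^ (N u) → ∃ e : Fin 3 → Kv u,
        Spl (algebraMap K (Kv u) (A : K)) (algebraMap K (Kv u) (B : K)) e ∧
        ∀ d : 𝓞 K, d ≠ 0 → CondAt u A B e d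
          (if sc (algebraMap K (Kv u) (d : K)) = 0 then η u
            else sc (algebraMap K (Kv u) (d : K))) := by
    refine ⟨fun u => if h : (2 : 𝓞 K) ∈ u.asIdeal then (hdy u h).choose else 0, ?_⟩
    intro u h
    simp only [dif_pos h]
    exact (hdy u h).choose_spec
  obtain ⟨p, hp⟩ : ∃ p : HeightOneSpectrum (𝓞 K) → 𝓞 K × 𝓞 K × ℕ,
      ∀ u : HeightOneSpectrum (𝓞 K), (6 : 𝓞 K) ∉ u.asIdeal →
      dsc (p u).1 (p u).2.1 ∉ u.asIdeal ^ (p u).2.2 ∧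
      ∀ A B : 𝓞 K, A - (p u).1 ∈ u.asIdeal ^ (p u).2.2 →
      B - (p u).2.1 ∈ u.asIdeal ^ (p u).2.2 → ∃ e : Fin 3 → Kv u,
        Spl (algebraMap K (Kv u) (A : K)) (algebraMap K (Kv u) (B : K)) e ∧
        ∀ d : 𝓞 K, d ≠ 0 → eo u (sc (d : K)) = 0 → CondAt u A B e d
          (if la u (sc (d : K)) + s u = 0 then 0 else η u) := by
    have h : ∀ u : HeightOneSpectrum (𝓞 K), ∃ p : 𝓞 K × 𝓞 K × ℕ, (6 : 𝓞 K) ∉ u.asIdeal →
        dsc p.1 p.2.1 ∉ u.asIdeal ^ p.2.2 ∧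
        ∀ A B : 𝓞 K, A - p.1 ∈ u.asIdeal ^ p.2.2 →
        B - p.2.1 ∈ u.asIdeal ^ p.2.2 → ∃ e : Fin 3 → Kv u,
          Spl (algebraMap K (Kv u) (A : K)) (algebraMap K (Kv u) (B : K)) e ∧
          ∀ d : 𝓞 K, d ≠ 0 → eo u (sc (d : K)) = 0 → CondAt u A B e d
            (if la u (sc (d : K)) + s u = 0 then 0 else η u) := by
      intro u
      by_cases h6 : (6 : 𝓞 K) ∈ u.asIdeal
      · exact ⟨(0, 0, 0), fun h => absurd h6 h⟩
      · obtain ⟨a, c, M, hM⟩ := hax u h6 (s u)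
        exact ⟨(a, c, M), fun _ => hM⟩
    exact ⟨fun u => (h u).choose, fun u => (h u).choose_spec⟩
  obtain ⟨e, he⟩ : ∃ e : HeightOneSpectrum (𝓞 K) → ℕ,
      e = fun v => if (2 : 𝓞 K) ∈ v.asIdeal then N v else if v ∈ C.R then 1 else (p v).2.2 :=
    ⟨_, rfl⟩
  obtain ⟨Av, hAv⟩ : ∃ Av : HeightOneSpectrum (𝓞 K) → 𝓞 K,
      Av = fun v => if (2 : 𝓞 K) ∈ v.asIdeal then -91 else if v ∈ C.R then -1 else (p v).1 :=
    ⟨_, rfl⟩
  obtain ⟨Bv, hBv⟩ : ∃ Bv : HeightOneSpectrum (𝓞 K) → 𝓞 K,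
      Bv = fun v => if (2 : 𝓞 K) ∈ v.asIdeal then -330 else if v ∈ C.R then b v else (p v).2.1 :=
    ⟨_, rfl⟩
  have hP3 : ∀ v : HeightOneSpectrum (𝓞 K), (2 : 𝓞 K) ∈ v.asIdeal →
      e v = N v ∧ Av v = -91 ∧ Bv v = -330 := by
    intro v hv
    rw [he, hAv, hBv]
    exact ⟨if_pos hv, if_pos hv, if_pos hv⟩
  have hR3 : ∀ v ∈ C.R, e v = 1 ∧ Av v = -1 ∧ Bv v = b v := by
    intro v hv
    have h2 := hC.R2 v hv
    rw [he, hAv, hBv]
    exact ⟨(if_neg h2).trans (if_pos hv), (if_neg h2).trans (if_pos hv),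
      (if_neg h2).trans (if_pos hv)⟩
  have hZ3 : ∀ v ∈ C.Z, (2 : 𝓞 K) ∉ v.asIdeal →
      e v = (p v).2.2 ∧ Av v = (p v).1 ∧ Bv v = (p v).2.1 := by
    intro v hv h2
    have hR := hZR v hv
    rw [he, hAv, hBv]
    exact ⟨(if_neg h2).trans (if_neg hR), (if_neg h2).trans (if_neg hR),
      (if_neg h2).trans (if_neg hR)⟩
  have hmemZ : ∀ v ∈ C.Z, v ∈ C.S := fun v hv => Finset.mem_union_left _ hv
  have hmemR : ∀ v ∈ C.R, v ∈ C.S := fun v hv => Finset.mem_union_right _ hv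
  have hcl : ∀ v ∈ C.S, dsc (Av v) (Bv v) ∉ v.asIdeal ^ e v := by
    intro v hv
    have hpr := v.isPrime
    by_cases h2 : (2 : 𝓞 K) ∈ v.asIdeal
    · obtain ⟨e1, e2, e3⟩ := hP3 v h2
      rw [e1, e2, e3]
      exact (hN v h2).1
    · rcases Finset.mem_union.1 hv with hv | hv
      · obtain ⟨e1, e2, e3⟩ := hZ3 v hv h2
        rw [e1, e2, e3]
        exact (hp v (hZ6 v hv h2)).1
      · obtain ⟨e1, e2, e3⟩ := hR3 v hv
        rw [e1, e2, e3, pow_one]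
        by_cases h6 : (6 : 𝓞 K) ∈ v.asIdeal
        · have h3 : (3 : 𝓞 K) ∈ v.asIdeal := by
            have h7 : (2 : 𝓞 K) * 3 ∈ v.asIdeal := by
              rw [show (2 : 𝓞 K) * 3 = 6 by norm_num]
              exact h6
            exact (hpr.mem_or_mem h7).resolve_left h2
          intro h
          have h8 : (2 : 𝓞 K) ^ 2 ∈ v.asIdeal := by
            have e8 : (2 : 𝓞 K) ^ 2 = 3 * (9 * b v ^ 2) - dsc (-1) (b v) := by
              unfold dsc
              ring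
            rw [e8]
            exact sub_mem (v.asIdeal.mul_mem_right _ h3) h
          exact h2 (hpr.mem_of_pow_mem 2 h8)
        · refine H30PN.nort_dsc' h6 ?_
          intro t ht
          apply hb v t
          have e9 : t ^ 3 - t + b v = t ^ 3 + -1 * t + b v := by ring
          rw [e9]
          exact ht
  obtain ⟨m, E, A₀, B₀, hm, hE, h1, h2, h3⟩ := H76MQ.Fq_cls (S := C.S) (R := ∅)
    (fun v hv => hmemZ v (hC.mem2 v hv)) (fun v hv => absurd hv (Finset.notMem_empty v))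
    e Av Bv hcl
  have hE2 : 2 ≤ E := by
    by_contra hcon
    have hE1 : E = 1 := by omega
    obtain ⟨v, hv⟩ := Cy_exists_two K
    have hvS : v ∈ C.S := hmemZ v (hC.mem2 v hv)
    obtain ⟨e1, e2, e3⟩ := hP3 v hv
    have h4 := (h3 A₀ B₀ (by rw [sub_self]; exact Ideal.zero_mem _)
      (by rw [sub_self]; exact Ideal.zero_mem _)).1 v hvS
    rw [e1, e2, e3] at h4
    have hN0 : N v ≠ 0 := by
      intro h0
      apply (hN v hv).1
      rw [h0, pow_zero, Ideal.one_eq_top]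
      exact Submodule.mem_top
    have hA : A₀ - (-91) ∈ v.asIdeal := Ideal.pow_le_self hN0 h4.1
    have hB : B₀ - (-330) ∈ v.asIdeal := Ideal.pow_le_self hN0 h4.2
    apply (h1 v hvS).2
    rw [hE1, pow_one]
    have e6 : dsc A₀ B₀ = (4 * (A₀ ^ 2 - 91 * A₀ + 91 ^ 2)) * (A₀ - (-91)) +
        (27 * (B₀ - 330)) * (B₀ - (-330)) + (-36992) * 2 := by
      unfold dsc
      ring
    rw [e6]
    exact add_mem (add_mem (Ideal.mul_mem_left _ _ hA) (Ideal.mul_mem_left _ _ hB))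
      (Ideal.mul_mem_left _ _ hv)
  refine ⟨m, E, A₀, B₀, hm, hE2, h1, h2, ?_, ?_⟩
  · intro A B hA hB v hv t ht
    have h6 := (h3 A B hA hB).1 v (hmemR v hv)
    obtain ⟨e1, e2, e3⟩ := hR3 v hv
    rw [e1, e2, e3, pow_one] at h6
    apply hb v t
    have e7 : t ^ 3 - t + b v = (t ^ 3 + A * t + B) - t * (A - (-1)) - (B - b v) := by ring
    rw [e7]
    exact sub_mem (sub_mem ht (Ideal.mul_mem_left _ _ h6.1)) h6.2
  · intro A B hA hB u hu
    have h6 := (h3 A B hA hB).1 u (hmemZ u hu)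
    by_cases h2u : (2 : 𝓞 K) ∈ u.asIdeal
    · obtain ⟨e1, e2, e3⟩ := hP3 u h2u
      rw [e1, e2, e3] at h6
      obtain ⟨ee, hee, hc⟩ := (hN u h2u).2 A B h6.1 h6.2
      refine ⟨ee, hee, fun d hd => ?_⟩
      have h7 := hc d (hΔ d hd).1
      have h8 : xX η s u d = (if sc (algebraMap K (Kv u) (d : K)) = 0 then η u
          else sc (algebraMap K (Kv u) (d : K))) := by
        unfold xX
        exact if_pos h2u
      rw [h8]
      exact h7
    · obtain ⟨e1, e2, e3⟩ := hZ3 u hu h2u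
      rw [e1, e2, e3] at h6
      obtain ⟨ee, hee, hc⟩ := (hp u (hZ6 u hu h2u)).2 A B h6.1 h6.2
      refine ⟨ee, hee, fun d hd => ?_⟩
      have h7 := hc d (hΔ d hd).1 ((hΔ d hd).2 u hu h2u)
      have h8 : xX η s u d = (if la u (sc (d : K)) + s u = 0 then 0 else η u) := by
        unfold xX
        exact if_neg h2u
      rw [h8]
      exact h7

end H76MX
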