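import Pool.Agent.H76.MX.Df
import Pool.Agent.H76.MQ.Re

/-!
ROW Rc (project MP_78d38b_MX, about 250 lines): the conic reciprocity law. MODIFICATION of `conic_rec` in `Pool/Agent/H76/MQ/Re.lean` (proved; copy it).

exists_YX. `co_2 (y Y^2)` is not zero for some `Y`: otherwise by polarisation (`(Y + Z)^2 - Y^2 - Z^2 = 2 Y Z`) `co_2 (y z) = 0` for all `z : L`, but `z = y⁻¹ θ^2` has `co_2 = 1`. Let `Y₀` be such that `co_2 (y Y₀^2) ≠ 0` and `Z₀` such that `co_2 (y⁻¹ Z₀^2) ≠ 0`, `Z₀ ≠ 0`, `Y₁ = Z₀⁻¹`. For `z ≠ 0` one has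
`be h z = N z * co_2 (z⁻¹)` (there may be a lemma in Fs/Cl/Ph: grep `be`; otherwise: `z * (z1^2 - z0 z2 + A z2^2) ...`: the element `z' = N z * z⁻¹` has coordinates which are quadratic in the `z i`, check with `h.co_mul`, `z z' = N z`). So `be h (y Y₁^2) ≠ 0`. For `t : ℚ` (or `ℕ`) put
`Y(t) = Y₀ + t Y₁`: `al h (y Y(t)^2)` is a polynomial in `t` of degree at most 2 with constant term `al h (y Y₀^2) ≠ 0`, `be h (y Y(t)^2)` is a polynomial of degree at most 4 whose coefficient of `t^4` is `be h (y Y₁^2) ≠ 0` (coordinates of `y Y(t)^2 = y Y₀^2 + 2 t y Y₀ Y₁ + t^2 y Y₁^2` are polynomials of degree 2 in `t`).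
A nonzero polynomial over `K` has finitely many roots; choose a natural number `t` which is not a root of the product (then `Y(t) ≠ 0` as `al` is not zero).

conic_recX. `c = sc y`, `y' = y Y^2` with `exists_YX`; `sc y' = c`, `N y'` is a square; `α = al D.h y'`, `β = be D.h y'`. `hH.prod α β`: `∑ᶠ v, hsv v α β + ∑ s, si s (sc α) * si s (sc β) = 0`. Real places: conic_real as in Re.lean. `v ∉ C.Z ∪ T`: `v` odd (`hC.mem2`), `hsv = tp v (sc α) (sc β)` (`hH.odd`), which is `0` by conic_CL as in Re.lean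
(`v ∈ C.R`: `dsc ∉ v` by `fam_R`, `eo w c = 0` by `H73P2.even_unique`, `hF.res`; `v ∉ C.S ∪ T`: `hF.sqf`, `hc`). So the finsum is `∑ v ∈ C.Z ∪ T` (`finsum_eq_sum_of_support_subset`), `C.Z` and `T` are disjoint. `v ∈ T`: conic_CT / conic_CL as in Re.lean (`6 ∉ v`: `v ∉ C.S`, `hC.mem2`, `hC.R3`).
`v ∈ C.Z`: `hcs`. The sum over `C.Z` is `C.Q (D.loc c)` (`Finset.sum_attach`/`Finset.sum_coe_sort`, `XData.loc_apply`).
-/

set_option autoImplicit false
set_option linter.unusedSectionVars false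
open scoped Classical

open WithZero NumberField IsDedekindDomain H38RT
open H38T1 (SC sc scu rep eo la si Pri OddP tp unif ka)
open H76PP H36MX H76MQ

namespace H76MX

variable {K L : Type} [Field K] [NumberField K] [Field L] [NumberField L] [Algebra K L]

/-- the norm times the inverse -/
private theorem Rc_inv {A B : K} {θ : L} (h : Cub K L A B θ) {z : L} (hz : z ≠ 0) :
    be h z = Algebra.norm K z * h.co 2 z⁻¹ := by
  obtain ⟨p0, e0⟩ : ∃ p, p = (h.co 0 z - A * h.co 2 z) ^ 2 +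
    h.co 1 z * (A * h.co 1 z + B * h.co 2 z) := ⟨_, rfl⟩
  obtain ⟨p1, e1⟩ : ∃ p, p = -(h.co 0 z * h.co 1 z + B * h.co 2 z ^ 2) := ⟨_, rfl⟩
  obtain ⟨p2, e2⟩ : ∃ p, p = h.co 1 z ^ 2 - h.co 0 z * h.co 2 z + A * h.co 2 z ^ 2 := ⟨_, rfl⟩
  obtain ⟨z', hz'⟩ : ∃ z' : L, z' = algebraMap K L p0 + algebraMap K L p1 * θ +
    algebraMap K L p2 * θ ^ 2 := ⟨_, rfl⟩
  obtain ⟨c0, c1, c2⟩ := h.co_mk' p0 p1 p2
  rw [← hz'] at c0 c1 c2
  obtain ⟨m0, m1, m2⟩ := h.co_mul z z'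
  rw [c0, c1, c2] at m0 m1 m2
  obtain ⟨n0, n1, n2⟩ := h.co_mk' (Algebra.norm K z) 0 0
  have hn : algebraMap K L (Algebra.norm K z) + algebraMap K L 0 * θ + algebraMap K L 0 * θ ^ 2 =
      algebraMap K L (Algebra.norm K z) := by simp
  rw [hn] at n0 n1 n2
  have hdet : Algebra.norm K z = h.co 0 z * p0 - B * (h.co 1 z * p2 + h.co 2 z * p1) := by
    rw [h.norm, Matrix.det_fin_three]
    simp only [Matrix.of_apply, Matrix.cons_val', Matrix.cons_val_zero, Matrix.cons_val_one,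
      Matrix.cons_val, Matrix.cons_val_fin_one]
    rw [e0, e1, e2]
    ring
  have hprod : z * z' = algebraMap K L (Algebra.norm K z) := by
    apply h.ext_co
    · rw [m0, n0, hdet]
    · rw [m1, n1, e0, e1, e2]
      ring
    · rw [m2, n2, e0, e1, e2]
      ring
  have hz2 : z' = (Algebra.norm K z) • z⁻¹ := by
    rw [Algebra.smul_def, ← hprod, mul_comm z z', mul_assoc, mul_inv_cancel₀ hz, mul_one]
  have h1 := congrArg (h.co 2) hz2
  rw [c2, map_smul, smul_eq_mul, e2] at h1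
  exact h1

/-- some `co 2 (y Y^2)` is not zero -/
private theorem Rc_ex {A B : K} {θ : L} (h : Cub K L A B θ) {y : L} (hy : y ≠ 0) :
    ∃ Y : L, h.co 2 (y * Y ^ 2) ≠ 0 := by
  by_contra hcon
  push Not at hcon
  have h2 : ∀ z : L, h.co 2 (y * z) = 0 := by
    intro z
    have h3 : y * (1 + z) ^ 2 = y * 1 ^ 2 + (2 : K) • (y * z) + y * z ^ 2 := by
      rw [Algebra.smul_def, map_ofNat]
      ring
    have h4 := hcon (1 + z)
    rw [h3, map_add, map_add, hcon 1, hcon z, map_smul, smul_eq_mul, zero_add, add_zero] at h4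
    exact (mul_eq_zero.1 h4).resolve_left two_ne_zero
  have h5 := h2 (y⁻¹ * θ ^ 2)
  rw [← mul_assoc, mul_inv_cancel₀ hy, one_mul, h.co_theta_sq.2.2] at h5
  exact one_ne_zero h5

theorem exists_YX {A B : K} {θ : L} (h : Cub K L A B θ) {y : L} (hy : y ≠ 0) :
    ∃ Y : L, Y ≠ 0 ∧ al h (y * Y ^ 2) ≠ 0 ∧ be h (y * Y ^ 2) ≠ 0 := by
  obtain ⟨Y₀, hY₀⟩ := Rc_ex h hy
  obtain ⟨Z₀, hZ₀⟩ := Rc_ex h (inv_ne_zero hy)
  have hZ0 : Z₀ ≠ 0 := by
    rintro rfl
    rw [zero_pow two_ne_zero, mul_zero, map_zero] at hZ₀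
    exact hZ₀ rfl
  obtain ⟨Y₁, hY₁⟩ : ∃ Y₁, Y₁ = Z₀⁻¹ := ⟨_, rfl⟩
  have hY10 : Y₁ ≠ 0 := by
    rw [hY₁]
    exact inv_ne_zero hZ0
  have hz0 : y * Y₁ ^ 2 ≠ 0 := mul_ne_zero hy (pow_ne_zero 2 hY10)
  have hbe : be h (y * Y₁ ^ 2) ≠ 0 := by
    rw [Rc_inv h hz0]
    refine mul_ne_zero ?_ ?_
    · have hfin : Module.Finite K L := Module.Finite.of_basis h.basis
      rw [Ne, Algebra.norm_eq_zero_iff]
      exact hz0
    · have h1 : (y * Y₁ ^ 2)⁻¹ = y⁻¹ * Z₀ ^ 2 := by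
        rw [hY₁, mul_inv, inv_pow, inv_inv]
      rw [h1]
      exact hZ₀
  -- the coordinates of the three products
  obtain ⟨a, ea⟩ : ∃ a : Fin 3 → K, a = fun i => h.co i (y * Y₀ ^ 2) := ⟨_, rfl⟩
  obtain ⟨b, eb⟩ : ∃ b : Fin 3 → K, b = fun i => h.co i (y * Y₀ * Y₁) := ⟨_, rfl⟩
  obtain ⟨c, ec⟩ : ∃ c : Fin 3 → K, c = fun i => h.co i (y * Y₁ ^ 2) := ⟨_, rfl⟩
  have hco : ∀ (t : K) (i : Fin 3), h.co i (y * (Y₀ + algebraMap K L t * Y₁) ^ 2) =
      a i + 2 * b i * t + c i * t ^ 2 := by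
    intro t i
    have h1 : y * (Y₀ + algebraMap K L t * Y₁) ^ 2 =
        y * Y₀ ^ 2 + (2 * t) • (y * Y₀ * Y₁) + (t ^ 2) • (y * Y₁ ^ 2) := by
      rw [Algebra.smul_def, Algebra.smul_def, map_mul, map_pow, map_ofNat]
      ring
    rw [h1, map_add, map_add, map_smul, map_smul, smul_eq_mul, smul_eq_mul, ea, eb, ec]
    ring
  have hc4 : c 1 ^ 2 - c 0 * c 2 + A * c 2 ^ 2 ≠ 0 := by
    rw [ec]
    exact hbe
  have ha2 : a 2 ≠ 0 := by
    rw [ea]
    exact hY₀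
  obtain ⟨P, hP⟩ : ∃ P : Fin 3 → Polynomial K, P = fun i => Polynomial.C (a i) +
    Polynomial.C (2 * b i) * Polynomial.X + Polynomial.C (c i) * Polynomial.X ^ 2 := ⟨_, rfl⟩
  have hPe : ∀ (t : K) (i : Fin 3), (P i).eval t = a i + 2 * b i * t + c i * t ^ 2 := by
    intro t i
    rw [hP]
    simp only [Polynomial.eval_add, Polynomial.eval_mul, Polynomial.eval_C, Polynomial.eval_X,
      Polynomial.eval_pow]
  have hP2 : P 2 ≠ 0 := by
    intro h0
    have h1 := hPe 0 2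
    rw [h0, Polynomial.eval_zero, mul_zero, zero_pow two_ne_zero, mul_zero, add_zero,
      add_zero] at h1
    exact ha2 h1.symm
  obtain ⟨Q, hQ⟩ : ∃ Q : Polynomial K, Q = P 1 ^ 2 - P 0 * P 2 + Polynomial.C A * P 2 ^ 2 :=
    ⟨_, rfl⟩
  have hQ0 : Q ≠ 0 := by
    intro h0
    have h1 : Q = Polynomial.C (a 1 ^ 2 - a 0 * a 2 + A * a 2 ^ 2) +
        Polynomial.C (4 * a 1 * b 1 - 2 * a 0 * b 2 - 2 * b 0 * a 2 + A * (4 * a 2 * b 2)) *
          Polynomial.X ^ 1 +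
        Polynomial.C (4 * b 1 ^ 2 + 2 * a 1 * c 1 - a 0 * c 2 - 4 * b 0 * b 2 - c 0 * a 2 +
          A * (4 * b 2 ^ 2 + 2 * a 2 * c 2)) * Polynomial.X ^ 2 +
        Polynomial.C (4 * b 1 * c 1 - 2 * b 0 * c 2 - 2 * c 0 * b 2 + A * (4 * b 2 * c 2)) *
          Polynomial.X ^ 3 +
        Polynomial.C (c 1 ^ 2 - c 0 * c 2 + A * c 2 ^ 2) * Polynomial.X ^ 4 := by
      rw [hQ, hP]
      simp only [map_add, map_sub, map_mul, map_pow, map_ofNat]
      ring
    have h2 := congrArg (fun p : Polynomial K => p.coeff 4) h1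
    simp only [h0, Polynomial.coeff_zero, Polynomial.coeff_add, Polynomial.coeff_C_mul,
      Polynomial.coeff_X_pow, Polynomial.coeff_C] at h2
    norm_num at h2
    exact hc4 h2.symm
  obtain ⟨t, ht⟩ : ∃ t : K, (P 2 * Q).eval t ≠ 0 := by
    by_contra hcon
    push Not at hcon
    refine mul_ne_zero hP2 hQ0 (Polynomial.funext fun r => ?_)
    rw [hcon r, Polynomial.eval_zero]
  rw [Polynomial.eval_mul] at ht
  have ht1 := left_ne_zero_of_mul ht
  have ht2 := right_ne_zero_of_mul ht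
  have hal : al h (y * (Y₀ + algebraMap K L t * Y₁) ^ 2) ≠ 0 := by
    unfold al
    rw [hco, ← hPe]
    exact ht1
  refine ⟨Y₀ + algebraMap K L t * Y₁, ?_, hal, ?_⟩
  · intro h0
    rw [h0, zero_pow two_ne_zero, mul_zero] at hal
    unfold al at hal
    rw [map_zero] at hal
    exact hal rfl
  · unfold be
    rw [hco, hco, hco, ← hPe, ← hPe, ← hPe]
    rw [hQ] at ht2
    simp only [Polynomial.eval_add, Polynomial.eval_sub, Polynomial.eval_mul, Polynomial.eval_C,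
      Polynomial.eval_pow] at ht2
    exact ht2

theorem conic_recX {C : CfgX K} (hC : C.Ok) (hH : Hilb K) {q₀ : HeightOneSpectrum (𝓞 K)}
    {T : Finset (HeightOneSpectrum (𝓞 K))} (hT : ∀ v ∈ T, v ∉ C.S ∧ v ≠ q₀)
    {A B : 𝓞 K} {e : (u : HeightOneSpectrum (𝓞 K)) → Fin 3 → Kv u} (hF : FamX C q₀ T A B e)
    {θ : L} (hR : HR2 K L A B θ) (D : XData C T A B e θ)
    (hcs : ∀ (u : HeightOneSpectrum (𝓞 K)) (hu : u ∈ C.Z) (y : L), y ≠ 0 →
      IsSquare (Algebra.norm K y) → al D.h y ≠ 0 → be D.h y ≠ 0 →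
      hsv u (al D.h y) (be D.h y) =
        hsc (lcl D.h (algebraMap K (Kv u)) (D.hs u hu) 0 (sc y))
          (lcl D.h (algebraMap K (Kv u)) (D.hs u hu) 2 (sc y)))
    {c : SC L} (hc : c ∈ (HH K (C.S ∪ T) : AddSubgroup (SC L))) :
    C.Q (D.loc c) + ∑ v ∈ T, eo (D.t₂ v) c * (la (D.t₁ v) c + D.nu v) = 0 := by
  obtain ⟨y, hy, hyc⟩ := H38T1.sc_surj c
  obtain ⟨hcN, hcE⟩ := mem_HH.1 hc
  have hN : IsSquare (Algebra.norm K y) := by
    have h1 := scm_sc (Algebra.norm K : L →* K) hy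
    rw [hyc, hcN] at h1
    exact (H38T1.sc_eq_zero (scm_ne (Algebra.norm K : L →* K) hy)).1 h1.symm
  obtain ⟨Y, hY, ha, hb⟩ := exists_YX D.h hy
  obtain ⟨y', hy'⟩ : ∃ y', y' = y * Y ^ 2 := ⟨_, rfl⟩
  have hy0 : y' ≠ 0 := by
    rw [hy']
    exact mul_ne_zero hy (pow_ne_zero 2 hY)
  have hsc : sc y' = c := by
    rw [hy', H38T1.sc_mul hy (pow_ne_zero 2 hY), H54MT.sc_sq hY, add_zero, hyc]
  have hN' : IsSquare (Algebra.norm K y') := by
    obtain ⟨r, hr⟩ := hN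
    refine ⟨r * Algebra.norm K Y, ?_⟩
    rw [hy', map_mul, map_pow, hr]
    ring
  rw [← hy'] at ha hb
  have hodd : ∀ v : HeightOneSpectrum (𝓞 K), v ∉ C.Z → OddP v := fun v hv =>
    Re_odd (fun h2 => hv (hC.mem2 v h2))
  have hTS : ∀ v ∈ T, v ∉ C.Z ∧ v ∉ C.R := by
    intro v hv
    have h1 := (hT v hv).1
    unfold CfgX.S at h1
    rw [Finset.mem_union, not_or] at h1
    exact h1
  have hrec := hH.prod (al D.h y') (be D.h y') ha hb
  unfold BB at hrec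
  have hreal : ∑ w : K →+* ℝ, si w (sc (al D.h y')) * si w (sc (be D.h y')) = 0 := by
    refine Finset.sum_eq_zero fun s _ => ?_
    have h1 := conic_real D.h (hF.pos s) hy0 hN'
    rw [H38T1.si_sc s hb, H38T1.si_sc s ha]
    unfold sw
    by_cases h2 : s (al D.h y') < 0
    · have h3 : ¬ s (be D.h y') < 0 := fun h3 => h1 ⟨h2, h3⟩
      rw [if_neg h3, mul_zero]
    · rw [if_neg h2, zero_mul]
  rw [hreal, add_zero] at hrec
  have hzero : ∀ v, v ∉ C.Z ∪ T → hsv v (al D.h y') (be D.h y') = 0 := by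
    intro v hv
    rw [Finset.mem_union, not_or] at hv
    obtain ⟨v1, v3⟩ := hv
    have hvo := hodd v v1
    rw [hH.odd v hvo _ _ ha hb]
    by_cases hvR : v ∈ C.R
    · refine conic_CL D.h hR hvo (Re_sq (fam_R (hC.R2 v hvR) (hF.res v hvR))) hy0 hN' ha hb ?_
      intro w hw
      have h1 : H73P2.NoRootAt (dn K w) (A : K) (B : K) := by
        rw [hw]
        exact H73P2.noRootAt_of (hF.res v hvR)
      exact H73P2.even_unique D.h w h1 hy0 hN'
    · have hvS : v ∉ C.S := by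
        unfold CfgX.S
        rw [Finset.mem_union, not_or]
        exact ⟨v1, hvR⟩
      refine conic_CL D.h hR hvo (hF.sqf v hvS) hy0 hN' ha hb ?_
      intro w hw
      rw [hsc]
      refine hcE w ?_
      rw [hw, Finset.mem_union, not_or]
      exact ⟨hvS, v3⟩
  have hsupp : (Function.support fun v => hsv v (al D.h y') (be D.h y')) ⊆ ↑(C.Z ∪ T) := by
    intro v hv
    by_contra h1
    exact hv (hzero v (fun h2 => h1 (Finset.mem_coe.2 h2)))
  have hd : Disjoint C.Z T := by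
    rw [Finset.disjoint_left]
    intro v hv h1
    exact (hTS v h1).1 hv
  rw [finsum_eq_sum_of_support_subset _ hsupp, Finset.sum_union hd] at hrec
  rw [← hrec]
  have hpart1 : C.Q (D.loc c) = ∑ v ∈ C.Z, hsv v (al D.h y') (be D.h y') := by
    rw [← Finset.sum_coe_sort C.Z (fun v => hsv v (al D.h y') (be D.h y'))]
    unfold CfgX.Q
    refine Finset.sum_congr rfl fun u _ => ?_
    rw [XData.loc_apply, hcs u.1 u.2 y' hy0 hN' ha hb, hsc]
  have hpart2 : ∑ v ∈ T, eo (D.t₂ v) c * (la (D.t₁ v) c + D.nu v) =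
      ∑ v ∈ T, hsv v (al D.h y') (be D.h y') := by
    refine Finset.sum_congr rfl fun v hv => ?_
    have hvo := hodd v (hTS v hv).1
    have hTT := D.hT v hv
    have hz : ∀ x : ZMod 2, x = 0 ∨ x = 1 := by decide
    rw [hH.odd v hvo _ _ ha hb]
    rcases hz (eo (D.t₂ v) c) with h0 | h0
    · rw [h0, zero_mul]
      symm
      refine conic_CL D.h hR hvo (hF.sqf v (hT v hv).1) hy0 hN' ha hb ?_
      intro w hw
      rcases hTT.only w hw with hww | hww
      · rw [hww]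
        exact gg_eo1 hR hvo hTT.toTwG D.h.finrank hy0 hN'
      · rw [hww, hsc]
        exact h0
    · rw [h0, one_mul]
      have h1 := conic_CT D.h hR hvo hTT hy0 hN' ha hb (by rw [hsc]; exact h0)
      rw [h1, hsc]
      rfl
  rw [hpart1, hpart2]

end H76MX
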