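import Pool.Agent.H76.MX.Df
import Pool.Agent.H76.MQ.Tk
import Pool.Agent.H76.MQ.Ee
import Pool.Agent.H76.MQ.Sb

/-!
ROW Rl (project MP_78d38b_MX, about 150 lines): the Selmer classes of the twists vanish. MODIFICATION of `rel_local` in
`Pool/Agent/H76/MQ/Sb.lean` (proved; copy it and use its auxiliary lemmas).

As there: `c = sc (ev (E θ) δ)`, `E = Dd * d`; `c ∈ HH K (C.S ∪ J)`: norm; at `w` with `dn K w ∉ C.S ∪ J`: if `dn K w ∈ P` and `= q₀`: `H73P2.even_unique` with `hF.irr`; if `dn K w ∈ P` and `≠ q₀`: `even_loc` (`eo v (sc E) = eo v (sc Dd) + eo v (sc d) = 0` by `hD.even`, `hdo`); if `dn K w ∉ P`: the hypothesis.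
(`C.S = C.Z ∪ C.R`; the condition `w ∉ S` only concerns places outside `C.S ∪ J`, nothing is needed at `C.Z`, `C.R`.) At `v ∈ J`: `kum_T` (`eo v (sc E) = 1` by `hD.odd` and `hdo`). So `D.X J c`, and by `hJ`: `D.loc c ∈ W` and `D.loc c = 0 → c = 0`.
By `hW.zero d hd (D.loc c)` it is enough that `LW (x u d) (D.loc c u).1 (D.loc c u).2` for `u ∈ C.Z`: this is `hcond u` (`CondAt`) with `D.hs u _`, `D.h`, `Dd` (`hD.loc u _` as `u ∈ C.S`), and `hLC u` (`u ∈ P`). So `c = 0`, i.e. `ev (E θ) δ` is a square (`H38T1.sc_eq_zero`).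
The cubic relation for `θ` is `D.h`.
-/

set_option autoImplicit false
set_option linter.unusedSectionVars false
open scoped Classical

open WithZero NumberField IsDedekindDomain H38RT
open H38T1 (SC sc scu rep eo la si Pri OddP tp unif ka)
open H76PP H36MX H76MQ

namespace H76MX

variable {K L : Type} [Field K] [NumberField K] [Field L] [NumberField L] [Algebra K L]

theorem Rl_six {C : CfgX K} (hC : C.Ok) {v : HeightOneSpectrum (𝓞 K)} (hv : v ∉ C.S) :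
    (6 : 𝓞 K) ∉ v.asIdeal := by
  intro h6
  apply hv
  have e1 : (6 : 𝓞 K) = 2 * 3 := by norm_num
  rw [e1] at h6
  rcases v.isPrime.mem_or_mem h6 with h | h
  · exact Finset.mem_union_left _ (hC.mem2 v h)
  · exact Finset.mem_union_right _ (hC.R3 v h)

theorem rel_localX {C : CfgX K} (hC : C.Ok) {q₀ : HeightOneSpectrum (𝓞 K)} (hq : q₀ ∉ C.S)
    {T : Finset (HeightOneSpectrum (𝓞 K))} (hT : ∀ v ∈ T, v ∉ C.S ∧ v ≠ q₀)
    {A B : 𝓞 K} {e : (u : HeightOneSpectrum (𝓞 K)) → Fin 3 → Kv u} (hF : FamX C q₀ T A B e)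
    {θ : L} (hR : HR2 K L A B θ) (D : XData C T A B e θ)
    {Δ : Set (𝓞 K)} {x : (u : HeightOneSpectrum (𝓞 K)) → 𝓞 K → SC (Kv u)}
    {W : Submodule (ZMod 2) C.V} (hW : Target C Δ x W)
    {J : Finset (HeightOneSpectrum (𝓞 K))} (hJT : J ⊆ T)
    (hJ : ∀ c : SC L, D.X J c → D.loc c ∈ W ∧ (D.loc c = 0 → c = 0))
    {Dd : 𝓞 K} (hD : H36MT.TwS C.S q₀ J (Dd : K)) {d : 𝓞 K} (hd : d ∈ Δ) (hd0 : d ≠ 0)
    (hdo : ∀ v : HeightOneSpectrum (𝓞 K), v ∉ C.S → eo v (sc (d : K)) = 0)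
    (hcond : ∀ u ∈ C.Z, CondAt u A B (e u) d (x u d))
    {P : Finset (HeightOneSpectrum (𝓞 K))} (hSP : C.S ⊆ P) (hJP : J ⊆ P) :
    H36MT.RelTriv K L P (((Dd * d : 𝓞 K) : K) ^ 2 * A) (((Dd * d : 𝓞 K) : K) ^ 3 * B)
      (algebraMap K L ((Dd * d : 𝓞 K) : K) * θ) := by
  intro dd hdd hsq heo hLC hLCr
  have h := D.h
  have hDK : (Dd : K) ≠ 0 := hD.ne
  have hDd : Dd ≠ 0 := fun h0 => hDK (RingOfIntegers.coe_eq_zero_iff.2 h0)
  have hdK : (d : K) ≠ 0 := fun h0 => hd0 (RingOfIntegers.coe_eq_zero_iff.1 h0)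
  have hcond' : ∀ (u : HeightOneSpectrum (𝓞 K)) (hu : u ∈ C.Z),
      LC (algebraMap K (u.adicCompletion K)) (((Dd * d : 𝓞 K) : K) ^ 2 * A)
        (((Dd * d : 𝓞 K) : K) ^ 3 * B) dd →
      LW (x u d) (lcl D.h (algebraMap K (Kv u)) (D.hs u hu) 0
          (sc (ev (algebraMap K L ((Dd * d : 𝓞 K) : K) * θ) dd)))
        (lcl D.h (algebraMap K (Kv u)) (D.hs u hu) 2
          (sc (ev (algebraMap K L ((Dd * d : 𝓞 K) : K) * θ) dd))) := fun u hu =>
    hcond u hu (D.hs u hu) L θ D.h Dd hDd (hD.loc u (Finset.mem_union_left _ hu)) dd hdd hsq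
  obtain ⟨E, hEdef⟩ : ∃ E : 𝓞 K, E = Dd * d := ⟨_, rfl⟩
  rw [← hEdef] at hdd hsq heo hLC hLCr hcond' ⊢
  have hE : E ≠ 0 := by
    rw [hEdef]
    exact mul_ne_zero hDd hd0
  have hscE : (sc (E : K) : SC K) = sc (Dd : K) + sc (d : K) := by
    have h1 : (E : K) = (Dd : K) * (d : K) := by
      rw [hEdef]
      exact map_mul (algebraMap (𝓞 K) K) Dd d
    rw [h1, H38T1.sc_mul hDK hdK]
  obtain ⟨c, hc⟩ : ∃ c : SC L, c = sc (ev (algebraMap K L (E : K) * θ) dd) := ⟨_, rfl⟩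
  have hX : D.X J c := by
    refine ⟨mem_HH.2 ⟨?_, ?_⟩, ?_⟩
    · rw [hc, scm_sc _ hdd]
      exact (H38T1.sc_eq_zero (scm_ne _ hdd)).2 hsq
    · intro w hw
      have hwS : dn K w ∉ C.S := fun h1 => hw (Finset.mem_union_left _ h1)
      have hwJ : dn K w ∉ J := fun h1 => hw (Finset.mem_union_right _ h1)
      rw [hc]
      by_cases hwP : dn K w ∈ P
      · by_cases hwq : dn K w = q₀
        · refine H73P2.even_unique h w (H73P2.noRootAt_of ?_) hdd hsq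
          rw [hwq]
          exact hF.irr
        · refine even_loc h hE (hF.sqf _ hwS) ?_ hdd (hLC _ hwP)
          rw [hscE, H38T1.eo_add, hdo _ hwS, add_zero]
          exact Sb_eo_even hDK (hD.even _ hwS hwJ hwq)
      · exact heo w hwP
    · intro v hv
      obtain ⟨hvS, hvq⟩ := hT v (hJT hv)
      rw [hc]
      refine kum_T h hR (Sb_odd (Rl_six hC hvS)) (hF.sqf v hvS) (D.hT v (hJT hv)) hE ?_
        hdd hsq (hLC v (hJP hv))
      rw [hscE, H38T1.eo_add, hdo v hvS, add_zero]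
      exact Sb_eo_odd hDK (hD.odd v hv)
  obtain ⟨hc1, hc2⟩ := hJ c hX
  have hzero : D.loc c = 0 := by
    refine hW.zero d hd (D.loc c) hc1 (fun u => ?_)
    rw [D.loc_apply, hc]
    exact hcond' u.1 u.2 (hLC u.1 (hSP (Finset.mem_union_left _ u.2)))
  have hfin := hc2 hzero
  rw [hc] at hfin
  exact (H38T1.sc_eq_zero hdd).1 hfin

end H76MX
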