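import Pool.Agent.H76.MX.Wa
import Pool.Agent.H76.MX.Rl
import Pool.Agent.H76.MX.Rc
import Pool.Agent.H76.MQ.Sc

/-!
The local main theorem of the project MP_78d38b_MX (no row, proved from the rows Wa, Rl, Rc).
-/

set_option autoImplicit false
set_option linter.unusedSectionVars false
open scoped Classical

open WithZero NumberField IsDedekindDomain H38RT
open H38T1 (SC sc scu rep eo la si Pri OddP tp unif ka)
open H76PP H36MX H76MQ

namespace H76MX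

/-- The conic at the places where the cubic splits (statement; proved in H36/MX). -/
def ConicSplit (K : Type) [Field K] [NumberField K] : Prop :=
  ∀ (L : Type) [Field L] [NumberField L] [Algebra K L] (A B : K) (θ : L) (h : Cub K L A B θ)
    (u : HeightOneSpectrum (𝓞 K)) (e : Fin 3 → Kv u)
    (hs : Spl (algebraMap K (Kv u) A) (algebraMap K (Kv u) B) e) (y : L), y ≠ 0 →
    IsSquare (Algebra.norm K y) → al h y ≠ 0 → be h y ≠ 0 →
    hsv u (al h y) (be h y) =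
      hsc (lcl h (algebraMap K (Kv u)) hs 0 (sc y)) (lcl h (algebraMap K (Kv u)) hs 2 (sc y))

theorem six_notMemX {K : Type} [Field K] [NumberField K] {C : CfgX K} (hC : C.Ok)
    {v : HeightOneSpectrum (𝓞 K)} (hv : v ∉ C.S) : (6 : 𝓞 K) ∉ v.asIdeal := by
  intro h6
  have e1 : (6 : 𝓞 K) = 2 * 3 := by norm_num
  rw [e1] at h6
  rcases v.isPrime.mem_or_mem h6 with h | h
  · exact hv (Finset.mem_union_left _ (hC.mem2 v h))
  · exact hv (Finset.mem_union_right _ (hC.R3 v h))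

theorem exists_XData {K L : Type} [Field K] [NumberField K] [Field L] [NumberField L] [Algebra K L]
    {C : CfgX K} (hC : C.Ok) {q₀ : HeightOneSpectrum (𝓞 K)}
    {T : Finset (HeightOneSpectrum (𝓞 K))} (hT : ∀ v ∈ T, v ∉ C.S ∧ v ≠ q₀)
    {A B : 𝓞 K} {e : (u : HeightOneSpectrum (𝓞 K)) → Fin 3 → Kv u} (hF : FamX C q₀ T A B e)
    {θ : L} (h : Cub K L (A : K) (B : K) θ) : Nonempty (XData C T A B e θ) := by
  obtain ⟨w₀, -⟩ := exists_above (L := L) q₀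
  have hne : Nonempty (HeightOneSpectrum (𝓞 L)) := ⟨w₀⟩
  have h3 : ∀ v ∈ T, ∃ t₁ t₂ : HeightOneSpectrum (𝓞 L), TwT K (A : K) θ v t₁ t₂ := fun v hv =>
    exists_TwT h (hF.sqf v (hT v hv).1) (six_notMemX hC (hT v hv).1) (hF.typ v hv)
  choose! t₁ t₂ hTT using h3
  exact ⟨⟨h, hF.spl, t₁, t₂, hTT⟩⟩

theorem main_localX {K : Type} [Field K] [NumberField K] {C : CfgX K} (hC : C.Ok) (hH : Hilb K)
    (hcs : ConicSplit K) {Δ : Set (𝓞 K)} {x : (u : HeightOneSpectrum (𝓞 K)) → 𝓞 K → SC (Kv u)}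
    {W : Submodule (ZMod 2) C.V} (hW : Target C Δ x W)
    (hΔ : ∀ d ∈ Δ, d ≠ 0 ∧ ∀ v : HeightOneSpectrum (𝓞 K), v ∉ C.S → eo v (sc (d : K)) = 0)
    {q₀ : HeightOneSpectrum (𝓞 K)} (hq : q₀ ∉ C.S) {k : ℕ} (hk0 : 0 < k)
    (T : ℕ → Finset (HeightOneSpectrum (𝓞 K))) (b : ℕ → ℕ)
    (hdis : ∀ i < k, ∀ j < k, i ≠ j → Disjoint (T i) (T j))
    (hT : ∀ v ∈ (Finset.range k).biUnion T, v ∉ C.S ∧ v ≠ q₀) {A B : 𝓞 K} {E₀ : ℕ}
    (hF0 : H36MT.FamS C.S E₀ q₀ ((Finset.range k).biUnion T) A B)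
    {e : (u : HeightOneSpectrum (𝓞 K)) → Fin 3 → Kv u}
    (hF : FamX C q₀ ((Finset.range k).biUnion T) A B e)
    (hcond : ∀ d ∈ Δ, ∀ u ∈ C.Z, CondAt u A B (e u) d (x u d))
    (hG : ∀ l < k, GoodSt (C.S ∪ (Finset.range l).biUnion T) (T l) (b l) A B)
    (hk : b 0 * 2 ^ (Module.finrank ℚ K + 2 * C.Z.card) ≤ 2 ^ k) :
    ∃ J ⊆ (Finset.range k).biUnion T, ∀ D : 𝓞 K, H36MT.TwS C.S q₀ J (D : K) →
      ∀ d ∈ Δ, ∀ Sg : Finset (HeightOneSpectrum (𝓞 K)),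
      C.S ⊆ Sg → (Finset.range k).biUnion T ⊆ Sg → q₀ ∈ Sg →
      H36MT.RelG K Sg ((D * d) ^ 2 * A) ((D * d) ^ 3 * B) := by
  obtain ⟨L, _, _, _, θ, hL⟩ := H24PD.exists_cub (fun t => hF0.no_root t)
  have hR : HR2 K L A B θ := hr2 hL hF0.dsc_ne
  obtain ⟨Dt⟩ := exists_XData hC hT hF hL
  have hrec : ∀ c : SC L, c ∈ (HH K (C.S ∪ (Finset.range k).biUnion T) : AddSubgroup (SC L)) →
      C.Q (Dt.loc c) + ∑ v ∈ (Finset.range k).biUnion T,
        eo (Dt.t₂ v) c * (la (Dt.t₁ v) c + Dt.nu v) = 0 := fun c hc =>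
    conic_recX hC hH hT hF hR Dt
      (fun u hu y hy hN ha hb => hcs L (A : K) (B : K) θ Dt.h u (e u) (Dt.hs u hu) y hy hN ha hb) hc
  obtain ⟨J, hJ, hw⟩ := walk_appX hC hH.hf hW hq hk0 T b hdis hT hF hG hk hR Dt hrec
  refine ⟨J, hJ, fun D hD d hd Sg hCS hTS hqS => ?_⟩
  have hD0 : (D : K) ≠ 0 := hD.ne
  have hd0 : (d : K) ≠ 0 := by
    intro h0
    apply (hΔ d hd).1
    apply RingOfIntegers.coe_injective
    rw [map_zero]
    exact h0
  obtain ⟨E, hE⟩ : ∃ E : 𝓞 K, E = D * d := ⟨_, rfl⟩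
  have hEK : (E : K) = (D : K) * (d : K) := by rw [hE]; push_cast; rfl
  have hE0 : (E : K) ≠ 0 := by rw [hEK]; exact mul_ne_zero hD0 hd0
  rw [← hE]
  have hrel := rel_localX hC hq hT hF hR Dt hW hJ hw hD hd (hΔ d hd).1 (hΔ d hd).2
    (fun u hu => hcond d hd u hu) hCS (hJ.trans hTS)
  rw [← hE] at hrel
  have e1 : ((E ^ 2 * A : 𝓞 K) : K) = (E : K) ^ 2 * (A : K) := by push_cast; rfl
  have e2 : ((E ^ 3 * B : 𝓞 K) : K) = (E : K) ^ 3 * (B : K) := by push_cast; rfl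
  refine ⟨?_, ?_, ?_, ?_, ?_⟩
  · intro v hv
    apply hCS
    have h3 : (2 : 𝓞 K) ∈ v.asIdeal := by
      by_contra h
      have h4 := (v.valuation_eq_one_iff_notMem (K := K) (r := (2 : 𝓞 K))).2 h
      have h5 : v.valuation K (2 : K) = 1 := by
        rw [← h4]
        congr 1
      exact absurd h5 hv.ne
    exact Finset.mem_union_left _ (hC.mem2 v h3)
  · intro h4
    have h5 : (4 * ((E : K) ^ 2 * (A : K)) ^ 3 + 27 * ((E : K) ^ 3 * (B : K)) ^ 2) = 0 := by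
      rw [← e1, ← e2, ← H36MT.dsc_coe, h4, map_zero]
    have h6 : (E : K) ^ 6 * (4 * (A : K) ^ 3 + 27 * (B : K) ^ 2) = 0 := by
      linear_combination h5
    exact (mul_ne_zero (pow_ne_zero 6 hE0) hF0.dsc_ne) h6
  · rw [e1, e2]
    intro t ht
    apply hF0.no_root (t / (E : K))
    have h7 : (E : K) ^ 3 * ((t / (E : K)) ^ 3 + (A : K) * (t / (E : K)) + (B : K)) = 0 := by
      field_simp
      linear_combination ht
    exact (mul_eq_zero.1 h7).resolve_left (pow_ne_zero 3 hE0)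
  · rw [e1, e2]
    intro v hv
    have hvS : v ∉ C.S := fun h => hv (hCS h)
    have hvJ : v ∉ J := fun h => hv (hTS (hJ h))
    have hvq : v ≠ q₀ := fun h => hv (h ▸ hqS)
    apply Sc_nice (hF0.sqf v hvS) hE0
    rw [hEK, H38RT.ord_mul hD0 hd0]
    apply Even.add (hD.even v hvS hvJ hvq)
    exact Sc_even hd0 ((hΔ d hd).2 v hvS)
  · rw [e1, e2]
    intro L' _ _ _ θ' hL'
    exact (H36MT.RelTriv.equiv (Tg_twist hL hE0) hL' hrel).toRelT

end H76MX
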